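import Pool.Agent.P8H13.PK.Model
import Pool.Agent.H373R2.T7.Fund
import Pool.Agent.H373R2.T7.LamZ2
import Pool.Agent.H398R2.BA1

set_option autoImplicit false

/-!
# Arbitrary sets of arguments: the truncated model and the sieve model of the primes

`hr r n = μ(r) c_r(n) / φ(r)`; `mo 1 Q 0 n = ∑_{r ≤ Q} hr r n` is split into the `r` with all prime factors `≤ z` (close to the
sieve model `lamz z n` on average) and the other ones (small in mean square along every set of shifts).
-/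

namespace Pool.Agent.P8H89.AS

open Finset
open Pool.Agent.P8H13.PK
open Pool.Agent.H373R2.T7 (pz mem_pz Vz lamz Vz_pos Vz_low)

lemma pair_le {W Q : ℕ} (b h n : ℕ) {r r' : ℕ} (hr1 : r ∈ RQ W Q) (hr2 : r' ∈ RQ W Q) :
    |∑ t ∈ range n, hr r (b + W * t) * hr r' (b + W * (t + h))| ≤
      (if r = r' then n * ∏ p ∈ r.primeFactors, xp p h else 0) + 2 * (Q : ℝ) ^ 2 := by
  rw [mem_RQ] at hr1 hr2
  obtain ⟨⟨hr1, hrQ⟩, hsq, hcop⟩ := hr1
  obtain ⟨⟨hr1', hrQ'⟩, hsq', hcop'⟩ := hr2
  set S := r.primeFactors ∪ r'.primeFactors with hS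
  have hSp : ∀ p ∈ S, p.Prime ∧ ¬ p ∣ W := by
    intro p hp
    rw [hS, mem_union] at hp
    rcases hp with hp | hp
    · refine ⟨Nat.prime_of_mem_primeFactors hp, fun hpM => ?_⟩
      have h2 : p ∣ Nat.gcd r W := Nat.dvd_gcd (Nat.dvd_of_mem_primeFactors hp) hpM
      rw [hcop] at h2
      exact (Nat.prime_of_mem_primeFactors hp).one_lt.ne' (Nat.dvd_one.mp h2)
    · refine ⟨Nat.prime_of_mem_primeFactors hp, fun hpM => ?_⟩
      have h2 : p ∣ Nat.gcd r' W := Nat.dvd_gcd (Nat.dvd_of_mem_primeFactors hp) hpM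
      rw [hcop'] at h2
      exact (Nat.prime_of_mem_primeFactors hp).one_lt.ne' (Nat.dvd_one.mp h2)
  set f : ℕ → ℕ → ℝ := fun p t => (if p ∈ r.primeFactors then lf p (b + W * t) else 1) *
    (if p ∈ r'.primeFactors then lf p (b + W * (t + h)) else 1) with hf
  have hfprod : ∀ t, hr r (b + W * t) * hr r' (b + W * (t + h)) = ∏ p ∈ S, f p t := by
    intro t
    rw [hf, prod_mul_distrib]
    rw [prod_ite, prod_ite]
    simp only [prod_const_one, mul_one]
    congr 1
    · unfold hr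
      apply prod_congr _ fun _ _ => rfl
      ext p
      rw [mem_filter, hS, mem_union]
      tauto
    · unfold hr
      apply prod_congr _ fun _ _ => rfl
      ext p
      rw [mem_filter, hS, mem_union]
      tauto
  have h2 := per_prod_inc (S := S) (fun p hp => (hSp p hp).1) (f := f) (by
      intro p _ t
      rw [hf]
      simp only
      congr 1
      · split_ifs
        · rw [show b + W * (t + p) = b + W * t + p * W by ring]
          exact lf_add _ _
        · rfl
      · split_ifs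
        · rw [show b + W * (t + p + h) = b + W * (t + h) + p * W by ring]
          exact lf_add _ _
        · rfl) (by
      intro p hp t
      rw [hf]
      simp only
      rw [abs_mul]
      have e1 : |if p ∈ r.primeFactors then lf p (b + W * t) else 1| ≤ 1 := by
        split_ifs
        · exact abs_lf_le (hSp p hp).1 _
        · simp
      have e2 : |if p ∈ r'.primeFactors then lf p (b + W * (t + h)) else 1| ≤ 1 := by
        split_ifs
        · exact abs_lf_le (hSp p hp).1 _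
        · simp
      exact mul_le_one₀ e1 (abs_nonneg _) e2) n
  have h3 : 2 * ∏ p ∈ S, (p : ℝ) ≤ 2 * (Q : ℝ) ^ 2 := by
    have e1 : ∏ p ∈ S, (p : ℝ) ≤ (∏ p ∈ r.primeFactors, (p : ℝ)) * ∏ p ∈ r'.primeFactors, (p : ℝ) := by
      rw [← prod_union_inter]
      have e2 : (1 : ℝ) ≤ ∏ p ∈ r.primeFactors ∩ r'.primeFactors, (p : ℝ) := by
        have : (1 : ℕ) ≤ ∏ p ∈ r.primeFactors ∩ r'.primeFactors, p :=
          prod_pos fun p hp => (Nat.prime_of_mem_primeFactors (mem_inter.1 hp).1).pos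
        have h' := (Nat.one_le_cast (α := ℝ)).2 this
        push_cast at h'
        exact h'
      have e3 : (0 : ℝ) ≤ ∏ p ∈ S, (p : ℝ) := prod_nonneg fun _ _ => Nat.cast_nonneg _
      rw [← hS]
      nlinarith
    rw [prod_pf hsq, prod_pf hsq'] at e1
    have e2 : (r : ℝ) ≤ Q := by exact_mod_cast hrQ
    have e3 : (r' : ℝ) ≤ Q := by exact_mod_cast hrQ'
    have e4 : (r : ℝ) * r' ≤ Q * Q := mul_le_mul e2 e3 (by positivity) (by positivity)
    nlinarith
  have h4 : |(n : ℝ) * ∏ p ∈ S, ((∑ t ∈ range p, f p t) / p)| ≤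
      (if r = r' then n * ∏ p ∈ r.primeFactors, xp p h else 0) := by
    split_ifs with hrr
    · subst hrr
      have hSr : S = r.primeFactors := by rw [hS, union_self]
      rw [hSr, abs_mul, abs_of_nonneg (Nat.cast_nonneg n)]
      apply mul_le_mul_of_nonneg_left _ (Nat.cast_nonneg n)
      rw [abs_prod]
      apply prod_le_prod (fun _ _ => abs_nonneg _)
      intro p hp
      have hp' := hSp p (by rw [hSr]; exact hp)
      have e1 : ∀ t ∈ range p, f p t = lf p (b + W * t) * lf p (b + W * t + W * h) := by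
        intro t _
        rw [hf]
        simp only
        rw [if_pos hp, if_pos hp]
        congr 2
        ring
      rw [sum_congr rfl e1]
      exact sum_lf_two hp'.1 hp'.2 b h
    · obtain ⟨p, hpS, hp1⟩ : ∃ p ∈ S, ∑ t ∈ range p, f p t = 0 := by
        have hne : r.primeFactors ≠ r'.primeFactors := by
          intro he
          apply hrr
          rw [← Nat.prod_primeFactors_of_squarefree hsq, ← Nat.prod_primeFactors_of_squarefree hsq', he]
        have : ∃ p, (p ∈ r.primeFactors ∧ p ∉ r'.primeFactors) ∨ (p ∉ r.primeFactors ∧ p ∈ r'.primeFactors) := by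
          by_contra hcon
          push Not at hcon
          apply hne
          ext p
          have := hcon p
          tauto
        obtain ⟨p, ⟨hp1, hp2⟩ | ⟨hp1, hp2⟩⟩ := this
        · have hpS : p ∈ S := by rw [hS, mem_union]; exact Or.inl hp1
          refine ⟨p, hpS, ?_⟩
          have e1 : ∀ t ∈ range p, f p t = lf p (b + W * t) := by
            intro t _
            rw [hf]
            simp only
            rw [if_pos hp1, if_neg hp2, mul_one]
          rw [sum_congr rfl e1]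
          exact sum_lf (hSp p hpS).1 (hSp p hpS).2 b
        · have hpS : p ∈ S := by rw [hS, mem_union]; exact Or.inr hp2
          refine ⟨p, hpS, ?_⟩
          have e1 : ∀ t ∈ range p, f p t = lf p (b + W * h + W * t) := by
            intro t _
            rw [hf]
            simp only
            rw [if_neg hp1, if_pos hp2, one_mul]
            congr 1
            ring
          rw [sum_congr rfl e1]
          exact sum_lf (hSp p hpS).1 (hSp p hpS).2 _
      rw [prod_eq_zero hpS (by rw [hp1, zero_div]), mul_zero, abs_zero]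
  have h5 : ∑ t ∈ range n, hr r (b + W * t) * hr r' (b + W * (t + h)) = ∑ t ∈ range n, ∏ p ∈ S, f p t :=
    sum_congr rfl fun t _ => hfprod t
  rw [h5]
  have h6 := abs_sub_abs_le_abs_sub (∑ t ∈ range n, ∏ p ∈ S, f p t) ((n : ℝ) * ∏ p ∈ S, ((∑ t ∈ range p, f p t) / p))
  linarith

/-- a part of the model -/
noncomputable def mR (R : Finset ℕ) (n : ℕ) : ℝ := ∑ r ∈ R, hr r n

theorem corR {Q : ℕ} (R : Finset ℕ) (hR : R ⊆ RQ 1 Q) (b h n : ℕ) :
    ∑ t ∈ range n, mR R (b + t) * mR R (b + t + h) ≤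
      n * ∑ r ∈ R, ∏ p ∈ r.primeFactors, xp p h + 2 * (Q : ℝ) ^ 4 := by
  have hpair : ∀ r ∈ R, ∀ r' ∈ R, |∑ t ∈ range n, hr r (b + t) * hr r' (b + t + h)| ≤
      (if r = r' then n * ∏ p ∈ r.primeFactors, xp p h else 0) + 2 * (Q : ℝ) ^ 2 := by
    intro r hr1 r' hr2
    have h0 := pair_le (W := 1) b h n (hR hr1) (hR hr2)
    simp only [one_mul, ← add_assoc] at h0
    exact h0
  have h1 : ∑ t ∈ range n, mR R (b + t) * mR R (b + t + h) =
      ∑ r ∈ R, ∑ r' ∈ R, ∑ t ∈ range n, hr r (b + t) * hr r' (b + t + h) := by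
    unfold mR
    simp_rw [sum_mul_sum]
    rw [sum_comm]
    apply sum_congr rfl
    intro r _
    rw [sum_comm]
  rw [h1]
  have h2 : ∑ r ∈ R, ∑ r' ∈ R, ∑ t ∈ range n, hr r (b + t) * hr r' (b + t + h) ≤
      ∑ r ∈ R, ∑ r' ∈ R, ((if r = r' then n * ∏ p ∈ r.primeFactors, xp p h else 0) + 2 * (Q : ℝ) ^ 2) :=
    sum_le_sum fun r hr1 => sum_le_sum fun r' hr2 => (le_abs_self _).trans (hpair r hr1 r' hr2)
  refine h2.trans ?_
  simp only [sum_add_distrib, sum_const, nsmul_eq_mul]
  apply add_le_add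
  · have h3 : ∑ r ∈ R, ∑ r' ∈ R, (if r = r' then n * ∏ p ∈ r.primeFactors, xp p h else 0) =
        n * ∑ r ∈ R, ∏ p ∈ r.primeFactors, xp p h := by
      rw [mul_sum]
      apply sum_congr rfl
      intro r hr1
      rw [sum_ite_eq, if_pos hr1]
    rw [h3]
  · have h3 : (R.card : ℝ) ≤ Q := by exact_mod_cast (card_le_card hR).trans (card_RQ 1 Q)
    have h4 : (0 : ℝ) ≤ R.card := Nat.cast_nonneg _
    have h5 : (R.card : ℝ) * R.card ≤ Q * Q := mul_le_mul h3 h3 h4 (by positivity)
    calc (R.card : ℝ) * (R.card * (2 * (Q : ℝ) ^ 2)) = ((R.card : ℝ) * R.card) * (2 * (Q : ℝ) ^ 2) := by ring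
      _ ≤ (Q * Q) * (2 * (Q : ℝ) ^ 2) := mul_le_mul_of_nonneg_right h5 (by positivity)
      _ = 2 * (Q : ℝ) ^ 4 := by ring

/-- a sum over the subsets containing a given element -/
lemma sum_pow_mem {P : Finset ℕ} {p : ℕ} (hp : p ∈ P) (x : ℕ → ℝ) :
    ∑ T ∈ P.powerset.filter (fun T => p ∈ T), ∏ i ∈ T, x i = x p * ∏ i ∈ P.erase p, (1 + x i) := by
  rw [prod_one_add, mul_sum]
  refine sum_nbij' (fun T => T.erase p) (fun T => insert p T) ?_ ?_ ?_ ?_ ?_
  · intro T hT
    rw [mem_filter, mem_powerset] at hT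
    rw [mem_powerset]
    exact erase_subset_erase _ hT.1
  · intro T hT
    rw [mem_powerset] at hT
    rw [mem_filter, mem_powerset]
    refine ⟨insert_subset hp (hT.trans (erase_subset _ _)), mem_insert_self _ _⟩
  · intro T hT
    rw [mem_filter] at hT
    exact insert_erase hT.2
  · intro T hT
    rw [mem_powerset] at hT
    exact erase_insert fun h => notMem_erase p P (hT h)
  · intro T hT
    rw [mem_filter] at hT
    exact (mul_prod_erase T x hT.2).symm

/-- the moduli with a prime factor `> z` -/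
noncomputable def RB (Q z : ℕ) : Finset ℕ := (RQ 1 Q).filter (fun r => ∃ p ∈ r.primeFactors, z < p)

/-- the moduli with all prime factors `≤ z` -/
noncomputable def RS (Q z : ℕ) : Finset ℕ := (RQ 1 Q).filter (fun r => ¬ ∃ p ∈ r.primeFactors, z < p)

lemma RB_sub (Q z : ℕ) : RB Q z ⊆ RQ 1 Q := filter_subset _ _

lemma mo_split (Q z n : ℕ) : mo 1 Q 0 n = mR (RB Q z) n + mR (RS Q z) n := by
  unfold mo mR RB RS
  simp only [zero_add, one_mul]
  exact (sum_filter_add_sum_filter_not _ _ _).symm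

lemma sum_RB_le (Q z : ℕ) (x : ℕ → ℝ) (hx : ∀ p, p.Prime → 0 ≤ x p) :
    ∑ r ∈ RB Q z, ∏ p ∈ r.primeFactors, x p ≤
      (∑ p ∈ (pz Q).filter (fun p => z < p), x p) * ∏ p ∈ pz Q, (1 + x p) := by
  classical
  have hinj : Set.InjOn (fun r : ℕ => r.primeFactors) (RB Q z : Set ℕ) := by
    intro r hr r' hr' h
    rw [mem_coe] at hr hr'
    have hr := mem_RQ.1 (RB_sub _ _ hr)
    have hr' := mem_RQ.1 (RB_sub _ _ hr')
    simp only at h
    rw [← Nat.prod_primeFactors_of_squarefree hr.2.1, ← Nat.prod_primeFactors_of_squarefree hr'.2.1, h]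
  rw [← sum_image (f := fun T : Finset ℕ => ∏ p ∈ T, x p) hinj]
  have hnn : ∀ T ∈ (pz Q).powerset, 0 ≤ ∏ p ∈ T, x p := by
    intro T hT
    rw [mem_powerset] at hT
    exact prod_nonneg fun p hp => hx p (mem_pz.1 (hT hp)).2
  have h1 : ∑ T ∈ (RB Q z).image (fun r : ℕ => r.primeFactors), ∏ p ∈ T, x p ≤
      ∑ T ∈ (pz Q).powerset, ∑ p ∈ (pz Q).filter (fun p => z < p), if p ∈ T then ∏ p ∈ T, x p else 0 := by
    have h2 : (RB Q z).image (fun r : ℕ => r.primeFactors) ⊆ (pz Q).powerset := by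
      intro T hT
      rw [mem_image] at hT
      obtain ⟨r, hr, rfl⟩ := hT
      have hr := mem_RQ.1 (RB_sub _ _ hr)
      rw [mem_powerset]
      intro p hp
      have hp' := Nat.prime_of_mem_primeFactors hp
      exact mem_pz.2 ⟨(Nat.le_of_dvd (by omega) (Nat.dvd_of_mem_primeFactors hp)).trans hr.1.2, hp'⟩
    refine le_trans ?_ (sum_le_sum_of_subset_of_nonneg h2 fun T hT _ => sum_nonneg fun p _ => ?_)
    · apply sum_le_sum
      intro T hT
      have hT2 := h2 hT
      rw [mem_image] at hT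
      obtain ⟨r, hr, rfl⟩ := hT
      unfold RB at hr
      rw [mem_filter] at hr
      obtain ⟨p, hp, hzp⟩ := hr.2
      have hpz : p ∈ (pz Q).filter (fun p => z < p) := mem_filter.2 ⟨mem_powerset.1 hT2 hp, hzp⟩
      have h3 := single_le_sum (f := fun p => if p ∈ r.primeFactors then ∏ p ∈ r.primeFactors, x p else 0)
        (fun p _ => by
          split_ifs
          · exact hnn _ hT2
          · exact le_rfl) hpz
      beta_reduce at h3
      rw [if_pos hp] at h3
      exact h3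
    · split_ifs
      · exact hnn _ hT
      · exact le_rfl
  refine h1.trans ?_
  rw [sum_comm, sum_mul]
  apply sum_le_sum
  intro p hp
  rw [mem_filter] at hp
  rw [← sum_filter, sum_pow_mem hp.1]
  apply mul_le_mul_of_nonneg_left _ (hx p (mem_pz.1 hp.1).2)
  apply prod_le_prod_of_subset_of_one_le (erase_subset _ _)
  · intro i hi
    have := hx i (mem_pz.1 (erase_subset _ _ hi)).2
    linarith
  · intro i hi _
    have := hx i (mem_pz.1 hi).2
    linarith

lemma inv_eq {p : ℕ} (hp : p.Prime) : 1 + 1 / ((p : ℝ) - 1) = (1 - 1 / (p : ℝ))⁻¹ := by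
  have h2 : (2 : ℝ) ≤ p := by exact_mod_cast hp.two_le
  have h3 : (p : ℝ) - 1 ≠ 0 := by linarith
  have h4 : (p : ℝ) ≠ 0 := by linarith
  have h5 : 1 - 1 / (p : ℝ) = ((p : ℝ) - 1) / p := by field_simp
  rw [h5, inv_div]
  field_simp
  ring

lemma prod_xp_le (Q h : ℕ) : ∏ p ∈ pz Q, (1 + xp p h) ≤ (Vz Q)⁻¹ := by
  unfold Vz
  rw [← prod_inv_distrib]
  apply prod_le_prod
  · intro p hp
    have := xp_nonneg (mem_pz.1 hp).2 h
    linarith
  · intro p hp
    have hp' := (mem_pz.1 hp).2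
    rw [← inv_eq hp']
    have h2 : (2 : ℝ) ≤ p := by exact_mod_cast hp'.two_le
    have h3 : (1 : ℝ) ≤ (p : ℝ) - 1 := by linarith
    unfold xp
    split_ifs
    · exact le_rfl
    · have : 1 / ((p : ℝ) - 1) ^ 2 ≤ 1 / ((p : ℝ) - 1) :=
        one_div_le_one_div_of_le (by linarith) (le_self_pow₀ h3 (by norm_num))
      linarith

/-- the diagonal -/
lemma X_zero (Q z : ℕ) : ∑ r ∈ RB Q z, ∏ p ∈ r.primeFactors, xp p 0 ≤ (Vz Q)⁻¹ := by
  refine le_trans ?_ (prod_xp_le Q 0)
  have h1 := sum_RQ_le (W := 1) (Q := Q) (fun p => xp p 0) fun p hp => xp_nonneg hp 0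
  have h2 : (Icc 1 Q).filter (fun p => p.Prime ∧ ¬ p ∣ 1) = pz Q := by
    ext p
    rw [mem_filter, mem_pz, mem_Icc]
    constructor
    · rintro ⟨⟨_, h3⟩, h4, _⟩
      exact ⟨h3, h4⟩
    · rintro ⟨h3, h4⟩
      exact ⟨⟨h4.one_le, h3⟩, h4, fun h5 => h4.one_lt.ne' (Nat.dvd_one.1 h5)⟩
  rw [h2] at h1
  refine le_trans (sum_le_sum_of_subset_of_nonneg (RB_sub Q z) fun r _ _ => ?_) h1
  exact prod_nonneg fun p hp => xp_nonneg (Nat.prime_of_mem_primeFactors hp) 0

lemma tail_sq {z : ℕ} (hz : 1 ≤ z) (Q : ℕ) : ∑ p ∈ (pz Q).filter (fun p => z < p), 1 / ((p : ℝ) - 1) ^ 2 ≤ 2 / (z : ℝ) := by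
  have hz0 : (0 : ℝ) < z := by exact_mod_cast hz
  have h1 : ∑ p ∈ (pz Q).filter (fun p => z < p), 1 / ((p : ℝ) - 1) ^ 2 ≤
      ∑ m ∈ Ico (z + 1) (z + Q + 2), 1 / ((m : ℝ) - 1) ^ 2 := by
    apply sum_le_sum_of_subset_of_nonneg
    · intro p hp
      rw [mem_filter, mem_pz] at hp
      rw [mem_Ico]
      omega
    · intro m _ _
      positivity
  refine h1.trans ?_
  have h2 : ∀ n : ℕ, ∑ m ∈ Ico (z + 1) (z + 1 + n), 1 / ((m : ℝ) - 1) ^ 2 ≤ 2 / z - 2 / ((z : ℝ) + n) := by
    intro n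
    induction n with
    | zero => simp
    | succ n ih =>
      rw [← add_assoc, sum_Ico_succ_top (by omega)]
      have h3 : (((z + 1 + n : ℕ) : ℝ) - 1) = z + n := by push_cast; ring
      rw [h3]
      have h4 : (0 : ℝ) < z + n := by positivity
      have h4' : (1 : ℝ) ≤ z + n := by
        have : (1 : ℝ) ≤ z := by exact_mod_cast hz
        have : (0 : ℝ) ≤ n := Nat.cast_nonneg n
        linarith
      have h5 : 1 / ((z : ℝ) + n) ^ 2 ≤ 2 / ((z : ℝ) + n) - 2 / ((z : ℝ) + (n + 1 : ℕ)) := by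
        push_cast
        rw [div_sub_div _ _ h4.ne' (by positivity), div_le_div_iff₀ (by positivity) (by positivity)]
        nlinarith
      linarith
  have h3 := h2 (Q + 1)
  have h4 : z + 1 + (Q + 1) = z + Q + 2 := by ring
  rw [h4] at h3
  refine h3.trans ?_
  have : (0 : ℝ) ≤ 2 / ((z : ℝ) + (Q + 1 : ℕ)) := by positivity
  linarith

/-- off the diagonal -/
lemma X_pos (Q : ℕ) {z h : ℕ} (hz : 1 ≤ z) (h0 : h ≠ 0) {H : ℝ} (hH : Real.log h ≤ H) :
    ∑ r ∈ RB Q z, ∏ p ∈ r.primeFactors, xp p h ≤ ((2 * H + 2) / z) * (Vz Q)⁻¹ := by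
  have hz0 : (0 : ℝ) < z := by exact_mod_cast hz
  refine (sum_RB_le Q z (fun p => xp p h) fun p hp => xp_nonneg hp h).trans ?_
  apply mul_le_mul _ (prod_xp_le Q h) (prod_nonneg fun p hp => by
    have := xp_nonneg (mem_pz.1 hp).2 h
    linarith) (by
      have : 0 ≤ Real.log h := Real.log_natCast_nonneg h
      have : 0 ≤ H := by linarith
      positivity)
  have h1 : ∀ p ∈ (pz Q).filter (fun p => z < p), xp p h ≤
      (if p ∈ h.primeFactors then 1 / (z : ℝ) else 0) + 1 / ((p : ℝ) - 1) ^ 2 := by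
    intro p hp
    rw [mem_filter, mem_pz] at hp
    have h3 : (z : ℝ) + 1 ≤ p := by exact_mod_cast hp.2
    have h4 : 1 / ((p : ℝ) - 1) ≤ 1 / (z : ℝ) := one_div_le_one_div_of_le hz0 (by linarith)
    have h5 : 0 ≤ 1 / ((p : ℝ) - 1) ^ 2 := by positivity
    unfold xp
    by_cases hd : p ∣ h
    · rw [if_pos hd, if_pos (Nat.mem_primeFactors.2 ⟨hp.1.2, hd, h0⟩)]
      linarith
    · rw [if_neg hd, if_neg (fun h6 => hd (Nat.dvd_of_mem_primeFactors h6))]
      linarith
  refine (sum_le_sum h1).trans ?_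
  rw [sum_add_distrib]
  have h2 : ∑ p ∈ (pz Q).filter (fun p => z < p), (if p ∈ h.primeFactors then 1 / (z : ℝ) else 0) ≤
      (2 * H) / z := by
    rw [← sum_filter, sum_const, nsmul_eq_mul]
    have h3 : ((((pz Q).filter (fun p => z < p)).filter (fun p => p ∈ h.primeFactors)).card : ℝ) ≤ 2 * H := by
      refine le_trans ?_ ((Pool.Agent.H398R2.BV.omega_le_log h (by omega)).trans (by linarith))
      exact_mod_cast card_le_card fun p hp => (mem_filter.1 hp).2
    calc _ ≤ (2 * H) * (1 / (z : ℝ)) := mul_le_mul_of_nonneg_right h3 (by positivity)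
      _ = _ := by ring
  have h3 := tail_sq hz Q
  calc _ ≤ 2 * H / z + 2 / z := add_le_add h2 h3
    _ = _ := by ring

/-- **the part of the model with large primes, along a set of shifts, in mean square** -/
theorem D_sq (Q N : ℕ) {z : ℕ} (hz : 1 ≤ z) (S : Finset ℕ) (q : ℕ → ℕ) (hq : Set.InjOn q S) {H : ℝ} (hH0 : 0 ≤ H)
    (hH : ∀ x ∈ S, Real.log (q x) ≤ H) :
    ∑ A ∈ Icc 1 N, (∑ x ∈ S, mR (RB Q z) (A + q x)) ^ 2 ≤
      N * (Vz Q)⁻¹ * (S.card + S.card ^ 2 * ((2 * H + 2) / z)) + S.card ^ 2 * (2 * (Q : ℝ) ^ 4) := by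
  have hz0 : (0 : ℝ) < z := by exact_mod_cast hz
  have hV := Vz_pos Q
  set D : ℕ → ℝ := mR (RB Q z) with hD
  set X : ℝ := N * (Vz Q)⁻¹ with hX
  have hX0 : 0 ≤ X := by positivity
  have key : ∀ x ∈ S, ∀ y ∈ S, q x ≤ q y → ∑ A ∈ Icc 1 N, D (A + q x) * D (A + q y) ≤
      (if x = y then X else X * ((2 * H + 2) / z)) + 2 * (Q : ℝ) ^ 4 := by
    intro x hx y hy hxy
    have h1 : ∑ A ∈ Icc 1 N, D (A + q x) * D (A + q y) =
        ∑ t ∈ range N, D (1 + q x + t) * D (1 + q x + t + (q y - q x)) := by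
      refine sum_nbij' (fun A => A - 1) (fun t => t + 1) ?_ ?_ ?_ ?_ ?_
      · intro A hA
        rw [mem_Icc] at hA
        rw [mem_range]
        omega
      · intro t ht
        rw [mem_range] at ht
        rw [mem_Icc]
        omega
      · intro A hA
        rw [mem_Icc] at hA
        omega
      · intro t _
        omega
      · intro A hA
        rw [mem_Icc] at hA
        congr 2
        · omega
        · omega
    rw [h1]
    refine (corR (RB Q z) (RB_sub Q z) (1 + q x) (q y - q x) N).trans ?_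
    apply add_le_add_left
    by_cases hxe : x = y
    · rw [if_pos hxe, hxe, Nat.sub_self]
      exact mul_le_mul_of_nonneg_left (X_zero Q z) (Nat.cast_nonneg N)
    · rw [if_neg hxe]
      have h2 : q x ≠ q y := fun h => hxe (hq hx hy h)
      have h3 : Real.log ((q y - q x : ℕ) : ℝ) ≤ H := by
        refine le_trans (Real.log_le_log ?_ ?_) (hH y hy)
        · exact_mod_cast (by omega : 0 < q y - q x)
        · exact_mod_cast Nat.sub_le _ _
      have h4 := mul_le_mul_of_nonneg_left (X_pos Q hz (by omega : q y - q x ≠ 0) h3) (Nat.cast_nonneg (α := ℝ) N)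
      refine h4.trans (le_of_eq ?_)
      rw [hX]
      ring
  have key2 : ∀ x ∈ S, ∀ y ∈ S, ∑ A ∈ Icc 1 N, D (A + q x) * D (A + q y) ≤
      (if x = y then X else X * ((2 * H + 2) / z)) + 2 * (Q : ℝ) ^ 4 := by
    intro x hx y hy
    rcases le_total (q x) (q y) with h | h
    · exact key x hx y hy h
    · have h1 := key y hy x hx h
      have h2 : ∑ A ∈ Icc 1 N, D (A + q x) * D (A + q y) = ∑ A ∈ Icc 1 N, D (A + q y) * D (A + q x) :=
        sum_congr rfl fun A _ => mul_comm _ _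
      rw [h2]
      refine h1.trans (le_of_eq ?_)
      simp only [eq_comm]
  have h1 : ∑ A ∈ Icc 1 N, (∑ x ∈ S, D (A + q x)) ^ 2 =
      ∑ x ∈ S, ∑ y ∈ S, ∑ A ∈ Icc 1 N, D (A + q x) * D (A + q y) := by
    simp_rw [sq, sum_mul_sum]
    rw [sum_comm]
    apply sum_congr rfl
    intro x _
    rw [sum_comm]
  rw [h1]
  refine (sum_le_sum fun x hx => sum_le_sum fun y hy => key2 x hx y hy).trans ?_
  have hW : 0 ≤ X * ((2 * H + 2) / z) := by positivity
  have h2 : ∀ x ∈ S, ∀ y ∈ S, ((if x = y then X else X * ((2 * H + 2) / z)) + 2 * (Q : ℝ) ^ 4) ≤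
      (if x = y then X else 0) + (X * ((2 * H + 2) / z) + 2 * (Q : ℝ) ^ 4) := by
    intro x _ y _
    split_ifs
    · linarith
    · linarith
  refine (sum_le_sum fun x hx => sum_le_sum fun y hy => h2 x hx y hy).trans ?_
  simp only [sum_add_distrib, sum_const, nsmul_eq_mul, sum_ite_eq]
  have h3 : ∑ x ∈ S, (if x ∈ S then X else 0) = S.card * X := by
    rw [sum_congr rfl fun x hx => if_pos hx, sum_const, nsmul_eq_mul]
  rw [h3]
  apply le_of_eq
  ring

end Pool.Agent.P8H89.AS
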