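import Pool.Agent.P8H89.AS.L1

set_option autoImplicit false

/-!
# Arbitrary sets of arguments: the first moment over the constants, at most scales
-/

namespace Pool.Agent.P8H89.AS

open Finset Filter Topology Polynomial
open Pool.Agent.P8H13.PK
open Pool.Agent.H373R2.T7 (pz mem_pz Vz lamz Vz_pos Vz_low)
open Pool.Agent.P8H14.PL (dz WP Fam num main_QP)
open Pool.Agent.TH823.PS (Most most_mono)
open Pool.Agent.P8H14.QP (sav sav_pos sav_mono sav_large log_ev)
open Pool.Agent.P8H14.QP.Len (sav_mul sav_one_le sav_log)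

/-- the number of primes needed: `k` with `z ^ k ≤ Q` and `2 ^ k` larger than any power of the logarithm -/
lemma exists_k (E K : ℕ) {c : ℝ} (hc : 0 < c) : ∃ N₀ : ℕ, ∀ N : ℕ, N₀ ≤ N → ∀ z Q : ℕ, 2 ≤ z → (z : ℝ) ≤ Real.log N ^ E →
    sav c N ≤ Q → ∃ k : ℕ, z ^ k ≤ Q ∧ Real.log N ^ K ≤ 2 ^ k := by
  have h1 : ∀ᶠ t : ℝ in atTop, (2 * ((E : ℝ) + 1) * (2 * K + 1) / c) * Real.log t ^ 3 ≤ t := by
    have h2 := (Real.isLittleO_pow_log_id_atTop (n := 3)).def (c := (2 * ((E : ℝ) + 1) * (2 * K + 1) / c + 1)⁻¹) (by positivity)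
    filter_upwards [h2, eventually_ge_atTop 1] with t ht ht1
    have h3 : 0 ≤ Real.log t := Real.log_nonneg ht1
    rw [Real.norm_eq_abs, Real.norm_eq_abs, abs_of_nonneg (by positivity), id, abs_of_nonneg (by linarith)] at ht
    have h4 : (0 : ℝ) < 2 * ((E : ℝ) + 1) * (2 * K + 1) / c + 1 := by positivity
    rw [inv_mul_eq_div, le_div_iff₀ h4] at ht
    nlinarith [pow_nonneg h3 3]
  obtain ⟨t0, ht0⟩ := eventually_atTop.1 h1
  obtain ⟨N₀, hN₀⟩ := log_ev (max t0 (Real.exp 1))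
  refine ⟨N₀, fun N hN z Q hz hzE hQ => ?_⟩
  have hL := hN₀ N hN
  set L := Real.log N with hLd
  have hLt := ht0 L ((le_max_left _ _).trans hL)
  have hLe : Real.exp 1 ≤ L := (le_max_right _ _).trans hL
  have hL0 : 0 < L := (Real.exp_pos 1).trans_le hLe
  have hll : 1 ≤ Real.log L := by rwa [Real.le_log_iff_exp_le hL0]
  have hQ0 : (0 : ℝ) < Q := (sav_pos _ _).trans_le hQ
  have hQn : Q ≠ 0 := by
    intro h
    subst h
    simp at hQ0
  refine ⟨Nat.log z Q, Nat.pow_log_le_self z hQn, ?_⟩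
  set k := Nat.log z Q with hk
  have h2 : Q < z ^ (k + 1) := Nat.lt_pow_succ_log_self (by omega) Q
  have hz0 : (0 : ℝ) < z := by exact_mod_cast (by omega : 0 < z)
  have h3 : Real.log Q ≤ (k + 1) * Real.log z := by
    have h4 : Real.log Q ≤ Real.log ((z : ℝ) ^ (k + 1)) := Real.log_le_log hQ0 (by exact_mod_cast h2.le)
    rw [Real.log_pow] at h4
    push_cast at h4
    exact h4
  have h4 : Real.log z ≤ E * Real.log L := by
    have h5 := Real.log_le_log hz0 hzE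
    rwa [Real.log_pow] at h5
  have h5 : c * L / Real.log L ≤ Real.log Q := by
    have h6 := Real.log_le_log (sav_pos _ _) hQ
    unfold sav at h6
    rwa [Real.log_exp] at h6
  have hlog2 : 1 / 2 ≤ Real.log 2 := by have := Real.log_two_gt_d9; linarith
  have hk0 : (0 : ℝ) ≤ k := Nat.cast_nonneg k
  -- `c L / log L ≤ (k + 1) E log L`
  have h6 : c * L / Real.log L ≤ (k + 1) * (((E : ℝ) + 1) * Real.log L) := by
    refine h5.trans (h3.trans ?_)
    apply mul_le_mul_of_nonneg_left _ (by positivity)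
    linarith
  rw [div_le_iff₀ (by linarith)] at h6
  -- `(2K+1) log L ≤ k + 1`
  have h7 : 2 * (2 * (K : ℝ) + 1) * Real.log L ≤ k + 1 := by
    have h8 : c * ((2 * ((E : ℝ) + 1) * (2 * K + 1) / c) * Real.log L ^ 3) ≤ c * L := mul_le_mul_of_nonneg_left hLt hc.le
    have h9 : c * ((2 * ((E : ℝ) + 1) * (2 * K + 1) / c) * Real.log L ^ 3) =
        (2 * (2 * (K : ℝ) + 1) * Real.log L) * (((E : ℝ) + 1) * Real.log L * Real.log L) := by field_simp
    rw [h9] at h8
    have h10 : (2 * (2 * (K : ℝ) + 1) * Real.log L) * (((E : ℝ) + 1) * Real.log L * Real.log L) ≤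
        (k + 1) * (((E : ℝ) + 1) * Real.log L * Real.log L) := by
      refine h8.trans (h6.trans (le_of_eq ?_))
      ring
    exact le_of_mul_le_mul_right h10 (by positivity)
  have h8 : (K : ℝ) * Real.log L ≤ k * Real.log 2 := by
    have hK0 : (0 : ℝ) ≤ K := Nat.cast_nonneg K
    have h9 : 2 * (K : ℝ) * Real.log L ≤ k := by nlinarith
    nlinarith
  have h9 : Real.log (L ^ K) ≤ Real.log ((2 : ℝ) ^ k) := by
    rw [Real.log_pow, Real.log_pow]
    exact h8
  exact (Real.log_le_log_iff (by positivity) (by positivity)).1 h9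

/-- **the first moment, at most scales** -/
theorem l1_all (W : ℕ) : ∃ B₀ : ℕ, ∀ (E : ℕ) (ε : ℝ), 0 < ε → ∃ c : ℝ, 0 < c ∧ Most ε (fun N =>
    ∀ z : ℕ, Real.log N ^ B₀ ≤ z → (z : ℝ) ≤ Real.log N ^ E → ∀ (S : Finset ℕ) (s : ℝ),
      (∀ x ∈ S, 1 ≤ x ∧ x ≤ Nat.sqrt N) → (S.card : ℝ) ≤ s → (Nat.sqrt N : ℝ) ≤ sav c N * s →
      ∑ n ∈ Icc 1 N, |∑ x ∈ S, (th (n + qq x) - lamz z (n + qq x))| ≤ s * (N / Real.log N ^ W)) := by
  obtain ⟨C, N1, hV⟩ := Vz_low
  refine ⟨C + 2 * W + 12, fun E ε hε => ?_⟩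
  set B₀ := C + 2 * W + 12 with hB₀
  obtain ⟨c0, hc0, hmost⟩ := main_QP 0 (2 * W + 8) 3 1 (by norm_num) le_rfl {(X ^ 2 + X : ℤ[X])} (ε := ε / 2) (by positivity)
  obtain ⟨M, hPhi⟩ := Phi_le
  obtain ⟨N2, hN2⟩ := log_ev (max M 16)
  obtain ⟨N3, hN3, hN3'⟩ := sav_log hc0 (B₀ + C + 2 * W + 12) (N1 + 16)
  obtain ⟨N4, hN4, hN4'⟩ := sav_log (c := c0 / 2) (by positivity) (2 * W + 16) 16
  obtain ⟨N5, hN5⟩ := exists_k E (2 * E + W + 16) hc0
  refine ⟨c0 / 2, by positivity, ?_⟩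
  refine most_mono (N₁ := N1 + N2 + N3 + N4 + N5 + 16) hε hmost fun N hN hG => ?_
  obtain ⟨⟨Q, hQ1, hQ2, hWP⟩, _, _⟩ := hG
  intro z hz1 hz2 S s hS hSs hsN
  have hN16 : 16 ≤ N := by omega
  have hN0 : (0 : ℝ) < N := by exact_mod_cast (by omega : 0 < N)
  have hLM := hN2 N (by omega)
  have hsl := hN3' N (by omega)
  have hsl2 := hN4' N (by omega)
  set L := Real.log N with hL
  have hL16 : 16 ≤ L := (le_max_right _ _).trans hLM
  have hLMM : M ≤ L := (le_max_left _ _).trans hLM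
  have hL0 : 0 < L := by linarith
  have hL1 : 1 ≤ L := by linarith
  set y := sav c0 N with hy
  set y' := sav (c0 / 2) N with hy'
  have hyy : y' * y' = y := by rw [hy', hy, sav_mul, add_halves]
  have hy'0 : 0 < y' := sav_pos _ _
  have hy0 : 0 < y := sav_pos _ _
  have hLB : 1 ≤ L ^ (B₀ + C + 2 * W + 12) := one_le_pow₀ hL1
  have hN1r : (0 : ℝ) ≤ N1 := Nat.cast_nonneg _
  have hy16 : 16 ≤ y := by nlinarith
  have hQL : (N1 + 16) * L ^ (B₀ + C + 2 * W + 12) ≤ Q := hsl.trans hQ1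
  have hQr : (1 : ℝ) ≤ Q := by linarith
  have hQn : 1 ≤ Q := by exact_mod_cast hQr
  have hQN1 : N1 ≤ Q := by
    have : (N1 : ℝ) ≤ Q := by nlinarith
    exact_mod_cast this
  have hQ8 : (Q : ℝ) ^ 8 ≤ N := (pow_le_pow_right₀ hQr (by norm_num)).trans hQ2
  have hQ4 : (Q : ℝ) ^ 4 ≤ √(N : ℝ) := by
    rw [Real.le_sqrt (by positivity) hN0.le, ← pow_mul]
    exact hQ8
  have hQ4N : (Q : ℝ) ^ 4 ≤ N := (pow_le_pow_right₀ hQr (by norm_num)).trans hQ8
  have hQN : Q ≤ N := by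
    have : (Q : ℝ) ≤ N := (le_self_pow₀ hQr (by norm_num)).trans hQ8
    exact_mod_cast this
  -- sizes of `s`
  have hr1 : 1 ≤ Nat.sqrt N := Nat.le_sqrt.2 (by omega)
  have hr1' : (1 : ℝ) ≤ Nat.sqrt N := by exact_mod_cast hr1
  have hs0 : 0 < s := by
    by_contra hcon
    push Not at hcon
    have : y' * s ≤ 0 := mul_nonpos_of_nonneg_of_nonpos hy'0.le hcon
    linarith
  have hsq : √(N : ℝ) ≤ 2 * Nat.sqrt N := by
    rw [Real.sqrt_le_left (by positivity)]
    have h1 : N < (Nat.sqrt N + 1) * (Nat.sqrt N + 1) := Nat.lt_succ_sqrt N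
    have h2 : (N : ℝ) ≤ ((Nat.sqrt N : ℝ) + 1) * (Nat.sqrt N + 1) := by exact_mod_cast h1.le
    nlinarith
  have hPhi' := hPhi N Q (by omega) hLMM hQn hQN hQ4N
  -- the variance
  have hvar := var (A := 2 * W + 8) (Q := Q) (N := N) (y := y) (y' := y') (s := s) (by omega) (by linarith) hy'0 hyy.le
    hL0 hWP (hPhi'.trans (by
      apply mul_le_mul_of_nonneg_left _ hN0.le
      exact pow_le_pow_right₀ hL1 (by omega))) hS hs0 hSs hsN
  have hT1 : ∑ n ∈ Icc 1 N, |TT Q S n| ≤ s * (N * (1 / L ^ (W + 1))) := by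
    apply l1_of_sq _ (by positivity) hs0.le
    refine hvar.trans ?_
    apply mul_le_mul_of_nonneg_left _ (by positivity)
    have h1 : (N : ℝ) / L ^ (2 * W + 8) ≤ N * (1 / (2 * L ^ (2 * W + 2))) := by
      rw [mul_one_div]
      apply div_le_div_of_nonneg_left hN0.le (by positivity)
      calc 2 * L ^ (2 * W + 2) ≤ L ^ 6 * L ^ (2 * W + 2) := by
            apply mul_le_mul_of_nonneg_right _ (by positivity)
            calc (2 : ℝ) ≤ L := by linarith
              _ ≤ L ^ 6 := le_self_pow₀ hL1 (by norm_num)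
        _ = L ^ (2 * W + 8) := by ring
    have h2 : Phi Q N / y' ≤ N * (1 / (2 * L ^ (2 * W + 2))) := by
      rw [mul_one_div, div_le_div_iff₀ hy'0 (by positivity)]
      calc Phi Q N * (2 * L ^ (2 * W + 2)) ≤ (N * L ^ 4) * (2 * L ^ (2 * W + 2)) :=
            mul_le_mul_of_nonneg_right hPhi' (by positivity)
        _ = N * (2 * L ^ (2 * W + 6)) := by ring
        _ ≤ N * y' := by
            apply mul_le_mul_of_nonneg_left _ hN0.le
            refine le_trans ?_ hsl2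
            calc 2 * L ^ (2 * W + 6) ≤ 16 * L ^ (2 * W + 6) := by
                  apply mul_le_mul_of_nonneg_right (by norm_num) (by positivity)
              _ ≤ 16 * L ^ (2 * W + 16) := by
                  apply mul_le_mul_of_nonneg_left _ (by norm_num)
                  exact pow_le_pow_right₀ hL1 (by omega)
    have h3 : (N : ℝ) * (1 / (2 * L ^ (2 * W + 2))) + N * (1 / (2 * L ^ (2 * W + 2))) = N * (1 / L ^ (W + 1)) ^ 2 := by
      field_simp
      ring
    linarith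
  -- the part with large primes
  have hz1' : (1 : ℝ) ≤ z := (one_le_pow₀ hL1).trans hz1
  have hzn : 1 ≤ z := by exact_mod_cast hz1'
  have hVQ : (Vz Q)⁻¹ ≤ L ^ C := by
    have h1 := hV Q hQN1
    have h2 : Real.log Q ≤ L := Real.log_le_log (by linarith) (by exact_mod_cast hQN)
    have h3 : 0 < Real.log Q := by
      apply Real.log_pos
      nlinarith
    rw [inv_le_comm₀ (Vz_pos Q) (by positivity), ← one_div]
    refine le_trans ?_ h1
    apply one_div_le_one_div_of_le (by positivity)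
    exact pow_le_pow_left₀ h3.le h2 C
  have hVQ0 : 0 ≤ (Vz Q)⁻¹ := inv_nonneg.2 (Vz_pos Q).le
  have hH : ∀ x ∈ S, Real.log (qq x) ≤ 2 * L := by
    intro x hx
    have h1 := qq_le (hS x hx).2
    have h2 : 1 ≤ qq x := by
      have := (hS x hx).1
      unfold qq
      nlinarith
    have h3 : Real.log (qq x) ≤ Real.log ((2 : ℝ) * N) := by
      apply Real.log_le_log (by exact_mod_cast h2)
      exact_mod_cast h1
    rw [Real.log_mul (by norm_num) hN0.ne'] at h3
    have h4 : Real.log 2 ≤ 1 := by have := Real.log_two_lt_d9; linarith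
    linarith
  have hD := D_sq Q N hzn S qq (qq_inj.injOn) (H := 2 * L) (by positivity) hH
  have hD1 : ∑ n ∈ Icc 1 N, |∑ x ∈ S, mR (RB Q z) (n + qq x)| ≤ s * (N * (1 / L ^ (W + 1))) := by
    apply l1_of_sq _ (by positivity) hs0.le
    refine hD.trans ?_
    have hSc : (0 : ℝ) ≤ S.card := Nat.cast_nonneg _
    have hS2 : (S.card : ℝ) ^ 2 ≤ s ^ 2 := pow_le_pow_left₀ hSc hSs 2
    -- `L ^ (C + 2 W + 4) ≤ s`
    have h1 : 4 * L ^ (C + 2 * W + 2) ≤ s := by
      have h2 : √(N : ℝ) ≤ 2 * (y' * s) := hsq.trans (by linarith)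
      have h3 : y' ≤ Q := by
        refine le_trans ?_ hQ1
        rw [← hyy]
        have : 1 ≤ y' := by
          refine le_trans ?_ hsl2
          have : 1 ≤ L ^ (2 * W + 16) := one_le_pow₀ hL1
          linarith
        nlinarith
      have h4 : (Q : ℝ) ^ 4 ≤ 2 * (Q * s) := hQ4.trans (h2.trans (by
        apply mul_le_mul_of_nonneg_left _ (by norm_num)
        exact mul_le_mul_of_nonneg_right h3 hs0.le))
      have h5 : (Q : ℝ) ^ 3 ≤ 2 * s := by
        have h6 : (Q : ℝ) * (Q : ℝ) ^ 3 ≤ Q * (2 * s) := by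
          calc (Q : ℝ) * (Q : ℝ) ^ 3 = (Q : ℝ) ^ 4 := by ring
            _ ≤ _ := h4
            _ = _ := by ring
        exact le_of_mul_le_mul_left h6 (by linarith)
      have h6 : (Q : ℝ) ≤ (Q : ℝ) ^ 3 := le_self_pow₀ hQr (by norm_num)
      have h7 : L ^ (C + 2 * W + 2) ≤ L ^ (B₀ + C + 2 * W + 12) := pow_le_pow_right₀ hL1 (by omega)
      nlinarith
    have h2 : (S.card : ℝ) ≤ s ^ 2 * (1 / (4 * L ^ (C + 2 * W + 2))) := by
      refine hSs.trans ?_
      rw [mul_one_div, le_div_iff₀ (by positivity)]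
      nlinarith
    have h3 : (2 * (2 * L) + 2) / (z : ℝ) ≤ 1 / (4 * L ^ (C + 2 * W + 2)) := by
      rw [div_le_div_iff₀ (by linarith) (by positivity), one_mul]
      refine le_trans ?_ hz1
      calc (2 * (2 * L) + 2) * (4 * L ^ (C + 2 * W + 2)) ≤ (L ^ 4) * (4 * L ^ (C + 2 * W + 2)) := by
            apply mul_le_mul_of_nonneg_right _ (by positivity)
            have : (16 : ℝ) ^ 3 ≤ L ^ 3 := pow_le_pow_left₀ (by norm_num) hL16 3
            nlinarith
        _ ≤ L ^ 10 * L ^ (C + 2 * W + 2) := by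
            have h4 : 4 * L ^ 4 ≤ L ^ 10 := by
              calc 4 * L ^ 4 ≤ L ^ 6 * L ^ 4 := by
                    apply mul_le_mul_of_nonneg_right _ (by positivity)
                    calc (4 : ℝ) ≤ L := by linarith
                      _ ≤ L ^ 6 := le_self_pow₀ hL1 (by norm_num)
                _ = L ^ 10 := by ring
            calc (L ^ 4) * (4 * L ^ (C + 2 * W + 2)) = (4 * L ^ 4) * L ^ (C + 2 * W + 2) := by ring
              _ ≤ _ := mul_le_mul_of_nonneg_right h4 (by positivity)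
        _ = L ^ B₀ := by rw [hB₀]; ring
    have h4 : 2 * (Q : ℝ) ^ 4 ≤ N * (1 / (4 * L ^ (2 * W + 2))) := by
      rw [mul_one_div, le_div_iff₀ (by positivity)]
      have h5 : 8 * L ^ (2 * W + 2) ≤ (Q : ℝ) ^ 4 := by
        have h6 : (Q : ℝ) ≤ (Q : ℝ) ^ 4 := le_self_pow₀ hQr (by norm_num)
        have h7 : L ^ (2 * W + 2) ≤ L ^ (B₀ + C + 2 * W + 12) := pow_le_pow_right₀ hL1 (by omega)
        nlinarith
      calc 2 * (Q : ℝ) ^ 4 * (4 * L ^ (2 * W + 2)) = (Q : ℝ) ^ 4 * (8 * L ^ (2 * W + 2)) := by ring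
        _ ≤ (Q : ℝ) ^ 4 * (Q : ℝ) ^ 4 := mul_le_mul_of_nonneg_left h5 (by positivity)
        _ = (Q : ℝ) ^ 8 := by ring
        _ ≤ N := hQ8
    have h5 : (N : ℝ) * (Vz Q)⁻¹ * (S.card + (S.card : ℝ) ^ 2 * ((2 * (2 * L) + 2) / z)) ≤
        N * L ^ C * (s ^ 2 * (1 / (4 * L ^ (C + 2 * W + 2))) + s ^ 2 * (1 / (4 * L ^ (C + 2 * W + 2)))) := by
      apply mul_le_mul
      · exact mul_le_mul_of_nonneg_left hVQ hN0.le
      · apply add_le_add h2
        exact mul_le_mul hS2 h3 (by positivity) (by positivity)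
      · positivity
      · positivity
    have h6 : (N : ℝ) * L ^ C * (s ^ 2 * (1 / (4 * L ^ (C + 2 * W + 2))) + s ^ 2 * (1 / (4 * L ^ (C + 2 * W + 2)))) =
        s ^ 2 * (N * (1 / (2 * L ^ (2 * W + 2)))) := by
      field_simp
      ring
    have h7 : (S.card : ℝ) ^ 2 * (2 * (Q : ℝ) ^ 4) ≤ s ^ 2 * (N * (1 / (4 * L ^ (2 * W + 2)))) :=
      mul_le_mul hS2 h4 (by positivity) (by positivity)
    have h8 : s ^ 2 * (N * (1 / (2 * L ^ (2 * W + 2)))) + s ^ 2 * (N * (1 / (4 * L ^ (2 * W + 2)))) ≤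
        s ^ 2 * (N * (1 / L ^ (W + 1)) ^ 2) := by
      have h9 : s ^ 2 * (N * (1 / L ^ (W + 1)) ^ 2) = s ^ 2 * (N * (1 / (2 * L ^ (2 * W + 2)))) +
          2 * (s ^ 2 * (N * (1 / (4 * L ^ (2 * W + 2))))) := by
        have h10 : L ^ (2 * W + 2) = L ^ (W + 1) * L ^ (W + 1) := by ring
        rw [h10]
        field_simp
        ring
      have : 0 ≤ s ^ 2 * (N * (1 / (4 * L ^ (2 * W + 2)))) := by positivity
      linarith
    linarith
  -- the smooth part
  have h3N : Real.log ((3 * N : ℕ) : ℝ) ≤ 2 * L := by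
    push_cast
    rw [Real.log_mul (by norm_num) hN0.ne']
    have h1 : Real.log 3 ≤ Real.log N := Real.log_le_log (by norm_num) (by exact_mod_cast (by omega : 3 ≤ N))
    linarith
  have h3N0 : 0 ≤ Real.log ((3 * N : ℕ) : ℝ) := Real.log_natCast_nonneg _
  have hSx : ∀ x ∈ S, x ≤ Nat.sqrt N := fun x hx => (hS x hx).2
  have hz16 : (16 : ℝ) ≤ z := by
    refine le_trans ?_ hz1
    exact hL16.trans (le_self_pow₀ hL1 (by omega))
  have hz2n : 2 ≤ z := by
    have : (2 : ℝ) ≤ z := by linarith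
    exact_mod_cast this
  obtain ⟨k, hk1, hk2⟩ := hN5 N (by omega) z Q hz2n hz2 hQ1
  have hM1 : ∑ n ∈ Icc 1 N, ∑ x ∈ S, |lamz z (n + qq x) - mR (RS Q z) (n + qq x)| ≤ s * (N * (1 / L ^ (W + 1))) := by
    refine (sum_shift hSx (fun n => |lamz z n - mR (RS Q z) n|) fun n => abs_nonneg _).trans ?_
    have h1 := sum_lamz_sub hzn hk1 (3 * N)
    have h2 : (((3 * N : ℕ) : ℝ)) * ((z : ℝ) ^ 2 * (1 + Real.log ((3 * N : ℕ) : ℝ)) ^ 4 / 2 ^ k) ≤ N * (1 / L ^ (W + 1)) := by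
      have h3 : (z : ℝ) ^ 2 ≤ L ^ (2 * E) := by
        calc (z : ℝ) ^ 2 ≤ (L ^ E) ^ 2 := pow_le_pow_left₀ (by linarith) hz2 2
          _ = L ^ (2 * E) := by rw [← pow_mul, mul_comm]
      have h4 : (1 + Real.log ((3 * N : ℕ) : ℝ)) ^ 4 ≤ (3 * L) ^ 4 := pow_le_pow_left₀ (by linarith) (by linarith) 4
      have h5 : (z : ℝ) ^ 2 * (1 + Real.log ((3 * N : ℕ) : ℝ)) ^ 4 ≤ L ^ (2 * E) * (3 * L) ^ 4 :=
        mul_le_mul h3 h4 (by positivity) (by positivity)
      have h6 : 3 * (L ^ (2 * E) * (3 * L) ^ 4) * L ^ (W + 1) ≤ 2 ^ k := by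
        refine le_trans ?_ hk2
        have h7 : (243 : ℝ) ≤ L ^ 11 := by
          calc (243 : ℝ) ≤ 16 ^ 11 := by norm_num
            _ ≤ L ^ 11 := pow_le_pow_left₀ (by norm_num) hL16 11
        calc 3 * (L ^ (2 * E) * (3 * L) ^ 4) * L ^ (W + 1) = 243 * L ^ (2 * E + W + 5) := by ring
          _ ≤ L ^ 11 * L ^ (2 * E + W + 5) := mul_le_mul_of_nonneg_right h7 (by positivity)
          _ = L ^ (2 * E + W + 16) := by ring
      have h8 : (0 : ℝ) < 2 ^ k := by positivity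
      push_cast at h5 ⊢
      rw [mul_one_div, mul_div_assoc', div_le_div_iff₀ h8 (by positivity)]
      calc 3 * (N : ℝ) * ((z : ℝ) ^ 2 * (1 + Real.log (3 * (N : ℝ))) ^ 4) * L ^ (W + 1) =
            N * (3 * ((z : ℝ) ^ 2 * (1 + Real.log (3 * (N : ℝ))) ^ 4) * L ^ (W + 1)) := by ring
        _ ≤ N * (3 * (L ^ (2 * E) * (3 * L) ^ 4) * L ^ (W + 1)) := by
            apply mul_le_mul_of_nonneg_left _ hN0.le
            apply mul_le_mul_of_nonneg_right _ (by positivity)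
            exact mul_le_mul_of_nonneg_left h5 (by norm_num)
        _ ≤ N * 2 ^ k := mul_le_mul_of_nonneg_left h6 hN0.le
    exact mul_le_mul hSs (h1.trans h2) (sum_nonneg fun _ _ => abs_nonneg _) hs0.le
  -- the prime powers
  have hP1 : ∑ n ∈ Icc 1 N, ∑ x ∈ S, (ArithmeticFunction.vonMangoldt (n + qq x) - th (n + qq x)) ≤
      s * (N * (1 / L ^ (W + 1))) := by
    refine (sum_shift hSx (fun n => ArithmeticFunction.vonMangoldt n - th n) fun n => sub_nonneg.2 (th_le_Lam n)).trans ?_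
    have h1 := dev_sum (3 * N) (by omega)
    have hsq0 : 0 ≤ √(N : ℝ) := Real.sqrt_nonneg _
    have h2 : 2 * √((3 * N : ℕ) : ℝ) * Real.log ((3 * N : ℕ) : ℝ) ≤ N * (1 / L ^ (W + 1)) := by
      have h3 : √((3 * N : ℕ) : ℝ) ≤ 2 * √(N : ℝ) := by
        rw [Real.sqrt_le_left (by positivity), mul_pow, Real.sq_sqrt hN0.le]
        push_cast
        linarith
      have h4 : 8 * L ^ (W + 2) ≤ √(N : ℝ) := by
        refine le_trans ?_ hQ4
        have h6 : (Q : ℝ) ≤ (Q : ℝ) ^ 4 := le_self_pow₀ hQr (by norm_num)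
        have h7 : L ^ (W + 2) ≤ L ^ (B₀ + C + 2 * W + 12) := pow_le_pow_right₀ hL1 (by omega)
        nlinarith
      rw [mul_one_div, le_div_iff₀ (by positivity)]
      calc 2 * √((3 * N : ℕ) : ℝ) * Real.log ((3 * N : ℕ) : ℝ) * L ^ (W + 1) ≤
            2 * (2 * √(N : ℝ)) * (2 * L) * L ^ (W + 1) := by
            apply mul_le_mul_of_nonneg_right _ (by positivity)
            apply mul_le_mul _ h3N h3N0 (by positivity)
            exact mul_le_mul_of_nonneg_left h3 (by norm_num)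
        _ = √(N : ℝ) * (8 * L ^ (W + 2)) := by ring
        _ ≤ √(N : ℝ) * √(N : ℝ) := mul_le_mul_of_nonneg_left h4 hsq0
        _ = N := Real.mul_self_sqrt hN0.le
    exact mul_le_mul hSs (h1.trans h2) (sum_nonneg fun n _ => sub_nonneg.2 (th_le_Lam n)) hs0.le
  -- the sum
  have hpt : ∀ n ∈ Icc 1 N, |∑ x ∈ S, (th (n + qq x) - lamz z (n + qq x))| ≤
      ∑ x ∈ S, (ArithmeticFunction.vonMangoldt (n + qq x) - th (n + qq x)) + |TT Q S n| +
        |∑ x ∈ S, mR (RB Q z) (n + qq x)| + ∑ x ∈ S, |lamz z (n + qq x) - mR (RS Q z) (n + qq x)| := by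
    intro n hn
    rw [mem_Icc] at hn
    have e1 : ∑ x ∈ S, (th (n + qq x) - lamz z (n + qq x)) =
        -(∑ x ∈ S, (ArithmeticFunction.vonMangoldt (n + qq x) - th (n + qq x))) + TT Q S n +
          ∑ x ∈ S, mR (RB Q z) (n + qq x) - ∑ x ∈ S, (lamz z (n + qq x) - mR (RS Q z) (n + qq x)) := by
      unfold TT
      rw [← sum_neg_distrib, ← sum_add_distrib, ← sum_add_distrib, ← sum_sub_distrib]
      apply sum_congr rfl
      intro x _
      rw [dz_nat (by omega), mo_split Q z]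
      ring
    have e2 : 0 ≤ ∑ x ∈ S, (ArithmeticFunction.vonMangoldt (n + qq x) - th (n + qq x)) :=
      sum_nonneg fun x _ => sub_nonneg.2 (th_le_Lam _)
    have e3 := abs_sum_le_sum_abs (fun x => lamz z (n + qq x) - mR (RS Q z) (n + qq x)) S
    rw [e1]
    have e4 := abs_le.1 (le_refl |TT Q S n|)
    have e5 := abs_le.1 (le_refl |∑ x ∈ S, mR (RB Q z) (n + qq x)|)
    have e6 := abs_le.1 e3
    rw [abs_le]
    constructor
    · linarith [e4.1, e5.1, e6.2]
    · linarith [e4.2, e5.2, e6.1]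
  refine (sum_le_sum hpt).trans ?_
  rw [sum_add_distrib, sum_add_distrib, sum_add_distrib]
  have h9 : 4 * (s * (N * (1 / L ^ (W + 1)))) ≤ s * (N / L ^ W) := by
    have h10 : s * (N / L ^ W) = L * (s * (N * (1 / L ^ (W + 1)))) := by
      rw [pow_succ]
      field_simp
    rw [h10]
    apply mul_le_mul_of_nonneg_right (by linarith) (by positivity)
  linarith

end Pool.Agent.P8H89.AS
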