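import Pool.Agent.P8H89.AS.Pre
import Pool.Agent.P8H89.AS.L2

set_option autoImplicit false

/-!
# Arbitrary sets of arguments: Conjecture F along arbitrary sets, for almost all constants, at most scales
-/

namespace Pool.Agent.P8H89.AS

open Finset Filter Topology
open Pool.Agent.P8H13.PK
open Pool.Agent.H373R2.T7 (pz mem_pz Vz lamz Vz_pos Vz_inv_small)
open Pool.Agent.TH823.PS (Most most_mono)
open Pool.Agent.P8H14.PL (sav_sq)
open Pool.Agent.P8H14.QP (sav sav_pos sav_mono sav_large log_ev)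
open Pool.Agent.P8H14.QP.Len (sav_mul sav_one_le sav_log)

/-- the number of the `x ∈ S`, `x ≤ n`, with `x² + x + A` prime -/
def cnt (S : Finset ℕ) (A n : ℕ) : ℕ := (S.filter (fun x => x ≤ n ∧ (x ^ 2 + x + A).Prime)).card

/-- the expected number -/
noncomputable def ex (S : Finset ℕ) (A z n : ℕ) : ℝ :=
  (Vz z)⁻¹ * ∑ x ∈ S.filter (fun x => x ≤ n ∧ ∀ p ∈ pz z, ¬ p ∣ x ^ 2 + x + A), 1 / Real.log ((x ^ 2 + x + A : ℕ) : ℝ)

lemma qq_add (A x : ℕ) : A + qq x = x ^ 2 + x + A := by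
  unfold qq
  ring

lemma point {S : Finset ℕ} {A z : ℕ} {W : ℝ} (hA : 3 ≤ A) (hS1 : ∀ x ∈ S, 1 ≤ x)
    (h : ∀ m, |∑ x ∈ S.filter (fun x => x ≤ m), (th (A + qq x) - lamz z (A + qq x))| ≤ W) (n : ℕ) :
    |(cnt S A n : ℝ) - ex S A z n| ≤ W := by
  classical
  have hW : 0 ≤ W := (abs_nonneg _).trans (h 0)
  set g : ℕ → ℝ := fun x => if x ∈ S then th (A + qq x) - lamz z (A + qq x) else 0 with hg
  set b : ℕ → ℝ := fun x => 1 / Real.log ((A + qq x : ℕ) : ℝ) with hb
  have hlog1 : ∀ x, 1 ≤ Real.log ((A + qq x : ℕ) : ℝ) := by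
    intro x
    rw [Real.le_log_iff_exp_le (by exact_mod_cast (by omega : 0 < A + qq x))]
    have h1 := Real.exp_one_lt_d9
    have h2 : (3 : ℝ) ≤ ((A + qq x : ℕ) : ℝ) := by exact_mod_cast (by omega : 3 ≤ A + qq x)
    linarith
  have hset : ∀ m, (Icc 1 m).filter (fun x => x ∈ S) = S.filter (fun x => x ≤ m) := by
    intro m
    ext x
    rw [mem_filter, mem_filter, mem_Icc]
    constructor
    · rintro ⟨⟨_, h2⟩, h3⟩
      exact ⟨h3, h2⟩
    · rintro ⟨h2, h3⟩
      exact ⟨⟨hS1 x h2, h3⟩, h2⟩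
  have hgs : ∀ m ≤ n, |∑ x ∈ Icc 1 m, g x| ≤ W := by
    intro m _
    rw [hg]
    rw [← sum_filter, hset]
    exact h m
  have hb0 : ∀ x, 1 ≤ x → 0 ≤ b x := fun x _ => by
    have := hlog1 x
    rw [hb]
    positivity
  have hb1 : ∀ x, 1 ≤ x → b (x + 1) ≤ b x := by
    intro x _
    rw [hb]
    apply one_div_le_one_div_of_le (by linarith [hlog1 x])
    apply Real.log_le_log (by exact_mod_cast (by omega : 0 < A + qq x))
    have : qq x ≤ qq (x + 1) := by unfold qq; nlinarith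
    exact_mod_cast Nat.add_le_add_left this A
  have h1 := abel hb0 hb1 n hgs
  have h2 : W * b 1 ≤ W := by
    have h3 : b 1 ≤ 1 := by
      rw [hb]
      beta_reduce
      rw [div_le_one (by linarith [hlog1 1])]
      exact hlog1 1
    nlinarith
  refine le_trans (le_of_eq ?_) (h1.trans h2)
  congr 1
  have e1 : ∑ x ∈ Icc 1 n, g x * b x = ∑ x ∈ S.filter (fun x => x ≤ n), (th (A + qq x) * b x - lamz z (A + qq x) * b x) := by
    rw [← hset, sum_filter]
    apply sum_congr rfl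
    intro x _
    rw [hg]
    beta_reduce
    split_ifs
    · ring
    · ring
  rw [e1, sum_sub_distrib]
  congr 1
  · unfold cnt
    have e2 : S.filter (fun x => x ≤ n ∧ (x ^ 2 + x + A).Prime) = (S.filter (fun x => x ≤ n)).filter (fun x => (x ^ 2 + x + A).Prime) := by
      rw [filter_filter]
    rw [e2, card_filter]
    push_cast
    apply sum_congr rfl
    intro x _
    rw [hb]
    beta_reduce
    unfold th
    rw [qq_add]
    split_ifs with hp
    · have h4 := hlog1 x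
      rw [qq_add] at h4
      field_simp
    · ring
  · unfold ex
    rw [mul_sum]
    have e2 : S.filter (fun x => x ≤ n ∧ ∀ p ∈ pz z, ¬ p ∣ x ^ 2 + x + A) =
        (S.filter (fun x => x ≤ n)).filter (fun x => ∀ p ∈ pz z, ¬ p ∣ x ^ 2 + x + A) := by
      rw [filter_filter]
    rw [e2, sum_filter]
    apply sum_congr rfl
    intro x _
    rw [hb]
    beta_reduce
    unfold lamz
    rw [qq_add]
    split_ifs
    · rfl
    · ring

open Classical in
/-- **arbitrary sets of arguments** -/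
theorem fin_all (U : ℕ) : ∃ B₀ : ℕ, ∀ (E : ℕ) (ε : ℝ), 0 < ε → ∃ c : ℝ, 0 < c ∧ Most ε (fun N =>
    ∀ z : ℕ, Real.log N ^ B₀ ≤ z → (z : ℝ) ≤ Real.log N ^ E → ∀ S : Finset ℕ,
      (∀ x ∈ S, 1 ≤ x ∧ x ^ 2 ≤ N) → √(N : ℝ) ≤ sav c N * S.card →
      (((Icc 3 N).filter (fun A => ¬ ∀ n, |(cnt S A n : ℝ) - ex S A z n| ≤ S.card / Real.log N ^ U)).card : ℝ) ≤
        N / Real.log N ^ U) := by
  obtain ⟨B₀, hl1⟩ := l1_all (3 * U + 8)
  refine ⟨B₀, fun E ε hε => ?_⟩
  obtain ⟨c, hc, hmost⟩ := hl1 E (ε / 2) (by positivity)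
  obtain ⟨N1, hN1⟩ := log_ev 16
  obtain ⟨N2, hN2⟩ := Vz_inv_small E
  obtain ⟨N3, hN3, hN3'⟩ := sav_log (c := 1) one_pos (U + 3) 2
  obtain ⟨N4, hN4, hN4'⟩ := sav_sq (c := c + 1) (by positivity) 1
  refine ⟨c, hc, ?_⟩
  refine most_mono (N₁ := N1 + N2 + N3 + N4 + 16) hε hmost fun N hN hG => ?_
  intro z hz1 hz2 S hS hsN
  have hN0 : (0 : ℝ) < N := by exact_mod_cast (by omega : 0 < N)
  have hL16 := hN1 N (by omega)
  have hs1 := hN3' N (by omega)
  have hs2 := hN4' N (by omega)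
  set L := Real.log N with hL
  have hL1 : 1 ≤ L := by linarith
  have hL0 : 0 < L := by linarith
  have hz1' : (1 : ℝ) ≤ z := (one_le_pow₀ hL1).trans hz1
  have hzn : 1 ≤ z := by exact_mod_cast hz1'
  have hV : (Vz z)⁻¹ ≤ L := hN2 N (by omega) z hzn hz2
  have hV0 : 0 ≤ (Vz z)⁻¹ := inv_nonneg.2 (Vz_pos z).le
  set s : ℝ := (S.card : ℝ) with hs
  have hsy := sav_pos c N
  -- the size of `S`
  have hsL : 2 * L ^ (U + 3) ≤ s := by
    have h1 : sav (c + 1) N ≤ √(N : ℝ) := by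
      rw [Real.le_sqrt (sav_pos _ _).le hN0.le, sq]
      rw [one_mul, le_div_iff₀ (sav_pos _ _)] at hs2
      exact hs2
    have h2 : sav c N * (2 * L ^ (U + 3)) ≤ sav c N * s := by
      calc sav c N * (2 * L ^ (U + 3)) ≤ sav c N * sav 1 N := mul_le_mul_of_nonneg_left hs1 hsy.le
        _ = sav (c + 1) N := sav_mul _ _ _
        _ ≤ √(N : ℝ) := h1
        _ ≤ _ := hsN
    exact le_of_mul_le_mul_left h2 hsy
  have hLU : 1 ≤ L ^ (U + 3) := one_le_pow₀ hL1
  have hs0 : 0 < s := by linarith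
  have hSne : S.Nonempty := by
    rw [← card_pos]
    have : (0 : ℝ) < S.card := hs0
    exact_mod_cast this
  have hSr : ∀ x ∈ S, 1 ≤ x ∧ x ≤ Nat.sqrt N := fun x hx => ⟨(hS x hx).1, Nat.le_sqrt'.2 (hS x hx).2⟩
  have hsN' : (Nat.sqrt N : ℝ) ≤ sav c N * s := (Real.nat_sqrt_le_real_sqrt).trans hsN
  -- the grid
  set J : ℕ := ⌈L ^ (U + 4)⌉₊ with hJ
  have hJ1 : L ^ (U + 4) ≤ J := Nat.le_ceil _
  have hJ2 : (J : ℝ) ≤ L ^ (U + 4) + 1 := (Nat.ceil_lt_add_one (by positivity)).le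
  have hLU4 : 1 ≤ L ^ (U + 4) := one_le_pow₀ hL1
  have hJn : 1 ≤ J := by
    have : (1 : ℝ) ≤ J := hLU4.trans hJ1
    exact_mod_cast this
  set w : ℝ := s / L ^ (U + 2) with hw
  have hw0 : 0 < w := by positivity
  set bad : ℕ → Finset ℕ := fun j => (Icc 1 N).filter (fun A =>
    w < |∑ x ∈ pre S J j, (th (A + qq x) - lamz z (A + qq x))|) with hbad
  have hbadc : ∀ j, ((bad j).card : ℝ) ≤ N / L ^ (2 * U + 6) := by
    intro j
    have h1 := hG z hz1 hz2 (pre S J j) s (fun x hx => hSr x (mem_filter.1 hx).1) (by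
      rw [hs]
      exact_mod_cast card_le_card (filter_subset _ _)) hsN'
    have h2 : ((bad j).card : ℝ) * w ≤ ∑ A ∈ bad j, |∑ x ∈ pre S J j, (th (A + qq x) - lamz z (A + qq x))| := by
      rw [← nsmul_eq_mul, ← sum_const]
      exact sum_le_sum fun A hA => (mem_filter.1 hA).2.le
    have h3 : ∑ A ∈ bad j, |∑ x ∈ pre S J j, (th (A + qq x) - lamz z (A + qq x))| ≤
        ∑ A ∈ Icc 1 N, |∑ x ∈ pre S J j, (th (A + qq x) - lamz z (A + qq x))| :=
      sum_le_sum_of_subset_of_nonneg (filter_subset _ _) fun _ _ _ => abs_nonneg _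
    have h4 := (h2.trans h3).trans h1
    rw [← le_div_iff₀ hw0] at h4
    refine h4.trans (le_of_eq ?_)
    rw [hw]
    have h5 : L ^ (3 * U + 8) = L ^ (U + 2) * L ^ (2 * U + 6) := by ring
    rw [h5]
    field_simp
  have hsub : (Icc 3 N).filter (fun A => ¬ ∀ n, |(cnt S A n : ℝ) - ex S A z n| ≤ s / L ^ U) ⊆
      (range (J + 2)).biUnion bad := by
    intro A hA
    rw [mem_filter, mem_Icc] at hA
    by_contra hcon
    rw [mem_biUnion] at hcon
    push Not at hcon
    apply hA.2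
    have h1 : ∀ j < J + 2, |∑ x ∈ pre S J j, (th (A + qq x) - lamz z (A + qq x))| ≤ w := by
      intro j hj
      have h2 := hcon j (mem_range.2 hj)
      rw [hbad] at h2
      beta_reduce at h2
      rw [mem_filter] at h2
      push Not at h2
      exact h2 (mem_Icc.2 ⟨by omega, hA.1.2⟩)
    have h2 := fun m => all_pre hJn hSne h1 m
    have h3 : w + (Vz z)⁻¹ * (S.card / J + 1) ≤ s / L ^ U := by
      have h4 : s / J ≤ s / L ^ (U + 4) := div_le_div_of_nonneg_left hs0.le (by positivity) hJ1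
      have h5 : (Vz z)⁻¹ * (s / J + 1) ≤ L * (s / L ^ (U + 4) + 1) :=
        mul_le_mul hV (by linarith) (by positivity) hL0.le
      have h6 : L * (s / L ^ (U + 4) + 1) ≤ 2 * w := by
        have h7 : L * (s / L ^ (U + 4)) ≤ w := by
          rw [hw, mul_div_assoc', div_le_div_iff₀ (by positivity) (by positivity)]
          calc L * s * L ^ (U + 2) = s * L ^ (U + 3) := by ring
            _ ≤ s * L ^ (U + 4) := mul_le_mul_of_nonneg_left (pow_le_pow_right₀ hL1 (by omega)) hs0.le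
        have h8 : L ≤ w := by
          rw [hw, le_div_iff₀ (by positivity)]
          calc L * L ^ (U + 2) = L ^ (U + 3) := by ring
            _ ≤ s := by linarith
        linarith
      have h7 : 3 * w ≤ s / L ^ U := by
        rw [hw, mul_div_assoc', div_le_div_iff₀ (by positivity) (by positivity)]
        calc 3 * s * L ^ U ≤ (L ^ 2) * s * L ^ U := by
              apply mul_le_mul_of_nonneg_right _ (by positivity)
              apply mul_le_mul_of_nonneg_right _ hs0.le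
              nlinarith
          _ = s * L ^ (U + 2) := by ring
      linarith
    intro n
    exact (point hA.1.1 (fun x hx => (hS x hx).1) h2 n).trans h3
  have hfin : (((Icc 3 N).filter (fun A => ¬ ∀ n, |(cnt S A n : ℝ) - ex S A z n| ≤ s / L ^ U)).card : ℝ) ≤
      ∑ j ∈ range (J + 2), ((bad j).card : ℝ) := by
    exact_mod_cast (card_le_card hsub).trans card_biUnion_le
  refine hfin.trans ((sum_le_sum fun j _ => hbadc j).trans ?_)
  rw [sum_const, card_range, nsmul_eq_mul]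
  push_cast
  rw [mul_div_assoc', div_le_div_iff₀ (by positivity) (by positivity)]
  have h1 : (J : ℝ) + 2 ≤ L ^ (U + 6) := by
    calc (J : ℝ) + 2 ≤ 4 * L ^ (U + 4) := by linarith
      _ ≤ L ^ 2 * L ^ (U + 4) := by
          apply mul_le_mul_of_nonneg_right _ (by positivity)
          nlinarith
      _ = L ^ (U + 6) := by ring
  calc ((J : ℝ) + 2) * N * L ^ U ≤ L ^ (U + 6) * N * L ^ U := by
        apply mul_le_mul_of_nonneg_right _ (by positivity)
        exact mul_le_mul_of_nonneg_right h1 hN0.le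
    _ = N * L ^ (2 * U + 6) := by ring

end Pool.Agent.P8H89.AS
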