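import Pool.Agent.P8H14.PL.N4
import Pool.Agent.P8H13.PK.Pair

set_option autoImplicit false

/-!
# Arbitrary sets of arguments: the variance of the primes against the truncated model
-/

namespace Pool.Agent.P8H89.AS

open Finset Polynomial
open Pool.Agent.P8H13.PK
open Pool.Agent.P8H14.PL (dz WP Fam num)

/-- `x ^ 2 + x` -/
def qq (x : ℕ) : ℕ := x ^ 2 + x

lemma qq_le {N x : ℕ} (h : x ≤ Nat.sqrt N) : qq x ≤ 2 * N := by
  have h1 : x * x ≤ N := (Nat.mul_le_mul h h).trans (Nat.sqrt_le N)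
  have h2 : x ≤ x * x := Nat.le_mul_self x
  unfold qq
  nlinarith

lemma qq_inj : Function.Injective qq := by
  intro x y h
  unfold qq at h
  rcases lt_trichotomy x y with h1 | h1 | h1
  · nlinarith
  · exact h1
  · nlinarith

/-- the mean square of the difference -/
noncomputable def Phi (Q N : ℕ) : ℝ :=
  ∑ m ∈ Icc 1 (3 * N), (ArithmeticFunction.vonMangoldt m - mo 1 Q 0 m) ^ 2

lemma Phi_nonneg (Q N : ℕ) : 0 ≤ Phi Q N := sum_nonneg fun _ _ => sq_nonneg _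

lemma dz_nat {Q m : ℕ} (hm : 1 ≤ m) : dz Q (m : ℤ) = ArithmeticFunction.vonMangoldt m - mo 1 Q 0 m := by
  unfold dz
  rw [if_pos (by exact_mod_cast hm), Int.toNat_natCast]

/-- one shift -/
lemma shift_sq (Q : ℕ) {N v : ℕ} (hv : v ≤ 2 * N) :
    ∑ n ∈ Icc 1 N, (dz Q ((n + v : ℕ) : ℤ)) ^ 2 ≤ Phi Q N := by
  unfold Phi
  have h1 : ∑ n ∈ Icc 1 N, (dz Q ((n + v : ℕ) : ℤ)) ^ 2 =
      ∑ m ∈ (Icc 1 N).image (fun n => n + v), (ArithmeticFunction.vonMangoldt m - mo 1 Q 0 m) ^ 2 := by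
    rw [sum_image (fun a _ b _ h => by simpa using h)]
    apply sum_congr rfl
    intro n hn
    rw [mem_Icc] at hn
    rw [dz_nat (by omega)]
  rw [h1]
  apply sum_le_sum_of_subset_of_nonneg
  · intro m hm
    rw [mem_image] at hm
    obtain ⟨n, hn, rfl⟩ := hm
    rw [mem_Icc] at hn ⊢
    omega
  · intro _ _ _
    positivity

/-- the sum over the arguments -/
noncomputable def TT (Q : ℕ) (S : Finset ℕ) (n : ℕ) : ℝ := ∑ x ∈ S, dz Q ((n + qq x : ℕ) : ℤ)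

lemma TT_sq (Q : ℕ) {N : ℕ} {S : Finset ℕ} (hS : ∀ x ∈ S, x ≤ Nat.sqrt N) :
    ∑ n ∈ Icc 1 N, TT Q S n ^ 2 ≤ S.card ^ 2 * Phi Q N := by
  have h1 : ∀ n ∈ Icc 1 N, TT Q S n ^ 2 ≤ S.card * ∑ x ∈ S, (dz Q ((n + qq x : ℕ) : ℤ)) ^ 2 := by
    intro n _
    exact sq_sum_le_card_mul_sum_sq
  refine (sum_le_sum h1).trans ?_
  rw [← mul_sum, sum_comm]
  have h2 : ∑ x ∈ S, ∑ n ∈ Icc 1 N, (dz Q ((n + qq x : ℕ) : ℤ)) ^ 2 ≤ ∑ _x ∈ S, Phi Q N :=
    sum_le_sum fun x hx => shift_sq Q (qq_le (hS x hx))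
  rw [sum_const, nsmul_eq_mul] at h2
  calc _ ≤ (S.card : ℝ) * (S.card * Phi Q N) := mul_le_mul_of_nonneg_left h2 (Nat.cast_nonneg _)
    _ = _ := by ring

/-- **the variance** -/
theorem var {A Q N : ℕ} {y y' s : ℝ} (hN : 1 ≤ N) (hy4 : 4 ≤ y) (hy' : 0 < y') (hyy : y' * y' ≤ y)
    (hlog : 0 < Real.log N) (hW : WP A 3 1 {(X ^ 2 + X : ℤ[X])} Q y N) (hPhi : Phi Q N ≤ N * Real.log N ^ A)
    {S : Finset ℕ} (hS : ∀ x ∈ S, 1 ≤ x ∧ x ≤ Nat.sqrt N) (hs : 0 < s) (hSs : (S.card : ℝ) ≤ s)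
    (hsN : (Nat.sqrt N : ℝ) ≤ y' * s) :
    ∑ n ∈ Icc 1 N, TT Q S n ^ 2 ≤ s ^ 2 * (N / Real.log N ^ A + Phi Q N / y') := by
  classical
  have hN0 : (0 : ℝ) < N := by exact_mod_cast hN
  have hy0 : 0 < y := by linarith
  have hPn := Phi_nonneg Q N
  set r := Nat.sqrt N with hr
  have hrN : N < (r + 1) * (r + 1) := Nat.lt_succ_sqrt N
  have hr1 : 1 ≤ r := Nat.le_sqrt.2 (by omega)
  -- the family
  have hdeg : (X ^ 2 + X : ℤ[X]).natDegree = 2 := by compute_degree!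
  have hev : ∀ m : ℕ, (X ^ 2 + X : ℤ[X]).eval (m : ℤ) = ((qq m : ℕ) : ℤ) := by
    intro m
    unfold qq
    simp
  have hF : Fam 3 1 {(X ^ 2 + X : ℤ[X])} y N r (fun m => ((qq m : ℕ) : ℤ)) := by
    refine ⟨?_, Or.inr ⟨X ^ 2 + X, by simp, by rw [hdeg]; norm_num, ?_, 0, ?_⟩⟩
    · intro m hm
      rw [mem_Icc] at hm
      have h1 := qq_le hm.2
      rw [abs_of_nonneg (by positivity)]
      have h2 : ((3 : ℕ) : ℤ) * (N : ℤ) = ((3 * N : ℕ) : ℤ) := by push_cast; ring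
      rw [h2]
      change ((qq m : ℕ) : ℤ) ≤ _
      exact_mod_cast (by omega : qq m ≤ 3 * N)
    · rw [hdeg]
      have h1 : ((r : ℝ) + 1) * (r + 1) ≤ 4 * (r : ℝ) ^ 2 := by
        have : (1 : ℝ) ≤ r := by exact_mod_cast hr1
        nlinarith
      have h2 : (N : ℝ) ≤ (r + 1) * (r + 1) := by exact_mod_cast hrN.le
      have h3 : 4 * (r : ℝ) ^ 2 ≤ y * (r : ℝ) ^ 2 := mul_le_mul_of_nonneg_right hy4 (by positivity)
      linarith
    · intro m _
      rw [hev, zero_add]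
  -- the weight
  set w : ℕ → ℂ := fun n => if n ≤ N then ((TT Q S n / s : ℝ) : ℂ) else 0 with hw
  have hw2 : ∑ n ∈ Icc 1 (3 * N / 1), ‖w n‖ ^ 2 = ∑ n ∈ Icc 1 N, (TT Q S n / s) ^ 2 := by
    rw [Nat.div_one]
    have h1 : Icc 1 N = (Icc 1 (3 * N)).filter (fun n => n ≤ N) := by
      ext n
      rw [mem_filter, mem_Icc, mem_Icc]
      omega
    rw [h1, sum_filter]
    apply sum_congr rfl
    intro n _
    rw [hw]
    beta_reduce
    split_ifs
    · rw [Complex.norm_real, Real.norm_eq_abs, sq_abs]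
    · simp
  have hw3 : ∑ n ∈ Icc 1 N, (TT Q S n / s) ^ 2 ≤ Phi Q N := by
    have h1 : ∑ n ∈ Icc 1 N, (TT Q S n / s) ^ 2 = (∑ n ∈ Icc 1 N, TT Q S n ^ 2) / s ^ 2 := by
      rw [sum_div]
      exact sum_congr rfl fun n _ => div_pow _ _ _
    rw [h1, div_le_iff₀ (by positivity)]
    refine (TT_sq Q fun x hx => (hS x hx).2).trans ?_
    rw [mul_comm]
    apply mul_le_mul_of_nonneg_left _ hPn
    exact pow_le_pow_left₀ (Nat.cast_nonneg _) hSs 2
  have hWP := hW r (fun m => ((qq m : ℕ) : ℤ)) hF 1 (by push_cast; linarith) (fun _ => 1) (fun _ => w) (fun _ => le_rfl)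
    (fun _ => by rw [hw2]; exact hw3.trans hPhi)
  set E : Finset ℕ := (Icc 1 r).filter (fun m => ∃ _i : Fin 1, ¬ ∀ X : ℕ, 1 * X ≤ 3 * N →
      ‖∑ n ∈ Icc 1 X, w n * ((dz Q (((1 : ℕ) : ℤ) * n + ((qq m : ℕ) : ℤ)) : ℝ) : ℂ)‖ ≤ N / Real.log N ^ A) with hE
  have hEc : (E.card : ℝ) ≤ r / y := by
    unfold num at hWP
    refine le_trans (le_of_eq ?_) hWP
    rw [hE]
    congr 2
    ext m
    simp
  -- the inner sums
  set I : ℕ → ℝ := fun x => ∑ n ∈ Icc 1 N, (TT Q S n / s) * dz Q ((n + qq x : ℕ) : ℤ) with hI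
  have hIgood : ∀ x ∈ S, x ∉ E → I x ≤ N / Real.log N ^ A := by
    intro x hx hxE
    have hx1 := hS x hx
    rw [hE, mem_filter] at hxE
    push Not at hxE
    have h1 := hxE (mem_Icc.2 hx1) 0 N (by omega)
    have h2 : ∑ n ∈ Icc 1 N, w n * ((dz Q (((1 : ℕ) : ℤ) * n + ((qq x : ℕ) : ℤ)) : ℝ) : ℂ) = ((I x : ℝ) : ℂ) := by
      rw [hI]
      push_cast
      apply sum_congr rfl
      intro n hn
      rw [mem_Icc] at hn
      rw [hw]
      beta_reduce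
      rw [if_pos hn.2]
      push_cast
      congr 4
      ring
    rw [h2, Complex.norm_real, Real.norm_eq_abs] at h1
    exact (le_abs_self _).trans h1
  have hIall : ∀ x ∈ S, I x ≤ Phi Q N := by
    intro x hx
    have h1 := sum_mul_sq_le_sq_mul_sq (Icc 1 N) (fun n => TT Q S n / s) (fun n => dz Q ((n + qq x : ℕ) : ℤ))
    have h2 : I x ^ 2 ≤ Phi Q N * Phi Q N :=
      h1.trans (mul_le_mul hw3 (shift_sq Q (qq_le (hS x hx).2)) (sum_nonneg fun _ _ => sq_nonneg _) hPn)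
    have h3 : |I x| ≤ |Phi Q N| := by
      rw [← sq_le_sq]
      linarith [h2, sq (Phi Q N)]
    rw [abs_of_nonneg hPn] at h3
    exact (le_abs_self _).trans h3
  have hmain : ∑ n ∈ Icc 1 N, TT Q S n ^ 2 = s * ∑ x ∈ S, I x := by
    rw [hI]
    beta_reduce
    rw [sum_comm, mul_sum]
    apply sum_congr rfl
    intro n _
    rw [← mul_sum]
    change TT Q S n ^ 2 = s * (TT Q S n / s * TT Q S n)
    field_simp
  rw [hmain]
  have h1 : ∑ x ∈ S, I x ≤ ∑ x ∈ S, (N / Real.log N ^ A + if x ∈ E then Phi Q N else 0) := by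
    apply sum_le_sum
    intro x hx
    split_ifs with h
    · have : (0 : ℝ) ≤ N / Real.log N ^ A := by positivity
      linarith [hIall x hx]
    · linarith [hIgood x hx h]
  have h2 : ∑ x ∈ S, (if x ∈ E then Phi Q N else 0) ≤ (s / y') * Phi Q N := by
    rw [← sum_filter, sum_const, nsmul_eq_mul]
    apply mul_le_mul_of_nonneg_right _ hPn
    have h3 : ((S.filter (fun x => x ∈ E)).card : ℝ) ≤ E.card := by
      exact_mod_cast card_le_card fun x hx => (mem_filter.1 hx).2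
    refine h3.trans (hEc.trans ?_)
    rw [div_le_div_iff₀ hy0 hy']
    calc (r : ℝ) * y' ≤ (y' * s) * y' := mul_le_mul_of_nonneg_right hsN hy'.le
      _ = s * (y' * y') := by ring
      _ ≤ s * y := mul_le_mul_of_nonneg_left hyy hs.le
  rw [sum_add_distrib, sum_const, nsmul_eq_mul] at h1
  have h4 : (S.card : ℝ) * (N / Real.log N ^ A) ≤ s * (N / Real.log N ^ A) :=
    mul_le_mul_of_nonneg_right hSs (by positivity)
  calc s * ∑ x ∈ S, I x ≤ s * (s * (N / Real.log N ^ A) + (s / y') * Phi Q N) :=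
        mul_le_mul_of_nonneg_left (h1.trans (add_le_add h4 h2)) hs.le
    _ = _ := by field_simp

end Pool.Agent.P8H89.AS
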