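import Pool.Agent.P8H89.AS.Smo
import Pool.Agent.P8H89.AS.Var

set_option autoImplicit false

/-!
# Arbitrary sets of arguments: the first moment over the constants
-/

namespace Pool.Agent.P8H89.AS

open Finset Filter Topology Polynomial
open Pool.Agent.P8H13.PK
open Pool.Agent.H373R2.T7 (pz mem_pz Vz lamz Vz_pos Vz_low)
open Pool.Agent.P8H14.PL (dz WP Fam num main_QP)
open Pool.Agent.TH823.PS (Most most_mono)
open Pool.Agent.P8H14.QP (sav sav_pos sav_mono sav_large log_ev)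
open Pool.Agent.P8H14.QP.Len (sav_mul sav_one_le sav_log)

lemma Lam_sq_le {M m : ℕ} (h : m ≤ M) (hm : 1 ≤ m) : ArithmeticFunction.vonMangoldt m ^ 2 ≤ Real.log M ^ 2 := by
  apply pow_le_pow_left₀ ArithmeticFunction.vonMangoldt_nonneg
  refine ArithmeticFunction.vonMangoldt_le_log.trans ?_
  exact Real.log_le_log (by exact_mod_cast hm) (by exact_mod_cast h)

/-- the mean square -/
lemma Phi_le : ∃ M : ℝ, ∀ N Q : ℕ, 3 ≤ N → M ≤ Real.log N → 1 ≤ Q → Q ≤ N → (Q : ℝ) ^ 4 ≤ N →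
    Phi Q N ≤ N * Real.log N ^ 4 := by
  obtain ⟨C, hC, hmo⟩ := mo_sq
  refine ⟨40 + 16 * C, fun N Q hN hM hQ hQN hQ4 => ?_⟩
  have hN0 : (0 : ℝ) < N := by exact_mod_cast (by omega : 0 < N)
  have hN3 : (3 : ℝ) ≤ N := by exact_mod_cast hN
  set L := Real.log N with hL
  have hL1 : 1 ≤ L := by linarith
  have h3N : Real.log ((3 * N : ℕ) : ℝ) ≤ 2 * L := by
    push_cast
    rw [Real.log_mul (by norm_num) hN0.ne']
    have : Real.log 3 ≤ L := Real.log_le_log (by norm_num) hN3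
    linarith
  have h3N0 : 0 ≤ Real.log ((3 * N : ℕ) : ℝ) := Real.log_natCast_nonneg _
  have h1 : ∀ m ∈ Icc 1 (3 * N), (ArithmeticFunction.vonMangoldt m - mo 1 Q 0 m) ^ 2 ≤
      2 * (4 * L ^ 2) + 2 * mo 1 Q 0 m ^ 2 := by
    intro m hm
    rw [mem_Icc] at hm
    have h2 := Lam_sq_le hm.2 hm.1
    have h3 : Real.log ((3 * N : ℕ) : ℝ) ^ 2 ≤ (2 * L) ^ 2 := pow_le_pow_left₀ h3N0 h3N 2
    nlinarith [sq_nonneg (ArithmeticFunction.vonMangoldt m + mo 1 Q 0 m)]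
  unfold Phi
  refine (sum_le_sum h1).trans ?_
  rw [sum_add_distrib, sum_const, Nat.card_Icc, Nat.add_sub_cancel, nsmul_eq_mul, ← mul_sum]
  have h2 : ∑ m ∈ Icc 1 (3 * N), mo 1 Q 0 m ^ 2 ≤ ∑ t ∈ range (3 * N + 1), mo 1 Q 0 t ^ 2 := by
    apply sum_le_sum_of_subset_of_nonneg
    · intro m hm
      rw [mem_Icc] at hm
      rw [mem_range]
      omega
    · intro _ _ _
      positivity
  have h3 := hmo 1 Q 0 (3 * N + 1) hQ
  have h4 : Real.log Q ≤ L := Real.log_le_log (by exact_mod_cast hQ) (by exact_mod_cast hQN)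
  push_cast at h3 ⊢
  have h5 : (3 * (N : ℝ) + 1) * (C * (1 + Real.log Q)) ≤ (4 * N) * (C * (2 * L)) := by
    apply mul_le_mul (by linarith) _ (by
      have : 0 ≤ Real.log Q := Real.log_natCast_nonneg Q
      positivity) (by positivity)
    apply mul_le_mul_of_nonneg_left _ hC.le
    linarith
  have h6 : (40 + 16 * C) * L ^ 2 ≤ L ^ 4 := by
    calc (40 + 16 * C) * L ^ 2 ≤ (L * L) * L ^ 2 := by
          apply mul_le_mul_of_nonneg_right _ (by positivity)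
          nlinarith
      _ = L ^ 4 := by ring
  have h7 : L ≤ L ^ 2 := by nlinarith
  have h8 : (1 : ℝ) ≤ L ^ 2 := one_le_pow₀ hL1
  calc 3 * (N : ℝ) * (2 * (4 * L ^ 2)) + 2 * ∑ m ∈ Icc 1 (3 * N), mo 1 Q 0 m ^ 2 ≤
        3 * (N : ℝ) * (2 * (4 * L ^ 2)) + 2 * ((4 * N) * (C * (2 * L)) + 2 * N) := by linarith
    _ = N * (24 * L ^ 2 + 16 * C * L + 4) := by ring
    _ ≤ N * ((40 + 16 * C) * L ^ 2) := by
        apply mul_le_mul_of_nonneg_left _ hN0.le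
        have : 16 * C * L ≤ 16 * C * L ^ 2 := mul_le_mul_of_nonneg_left h7 (by positivity)
        nlinarith
    _ ≤ N * L ^ 4 := mul_le_mul_of_nonneg_left h6 hN0.le

lemma dev_sum (N : ℕ) (hN : 1 ≤ N) : ∑ m ∈ Icc 1 N, (ArithmeticFunction.vonMangoldt m - th m) ≤
    2 * Real.sqrt N * Real.log N := by
  have h1 := Chebyshev.abs_psi_sub_theta_le_sqrt_mul_log (x := (N : ℝ)) (by exact_mod_cast hN)
  have h2 : Chebyshev.psi (N : ℝ) = ∑ m ∈ Icc 1 N, ArithmeticFunction.vonMangoldt m := by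
    unfold Chebyshev.psi
    rw [Nat.floor_natCast]
    rfl
  have h3 : Chebyshev.theta (N : ℝ) = ∑ m ∈ Icc 1 N, th m := by
    unfold Chebyshev.theta th
    rw [Nat.floor_natCast, sum_filter]
    rfl
  rw [sum_sub_distrib, ← h2, ← h3]
  exact (le_abs_self _).trans h1

lemma th_le_Lam (n : ℕ) : th n ≤ ArithmeticFunction.vonMangoldt n := by
  unfold th
  split_ifs with h
  · rw [ArithmeticFunction.vonMangoldt_apply_prime h]
  · exact ArithmeticFunction.vonMangoldt_nonneg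

/-- a nonnegative function along the arguments -/
lemma sum_shift {N : ℕ} {S : Finset ℕ} (hS : ∀ x ∈ S, x ≤ Nat.sqrt N) (g : ℕ → ℝ) (hg : ∀ n, 0 ≤ g n) :
    ∑ n ∈ Icc 1 N, ∑ x ∈ S, g (n + qq x) ≤ S.card * ∑ m ∈ Icc 1 (3 * N), g m := by
  rw [sum_comm, ← nsmul_eq_mul, ← sum_const]
  apply sum_le_sum
  intro x hx
  rw [← sum_image (f := g) (g := fun n => n + qq x) (fun a _ b _ h => by simpa using h)]
  apply sum_le_sum_of_subset_of_nonneg
  · intro m hm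
    rw [mem_image] at hm
    obtain ⟨n, hn, rfl⟩ := hm
    have := qq_le (hS x hx)
    rw [mem_Icc] at hn ⊢
    omega
  · intro m _ _
    exact hg m

/-- from the second to the first moment -/
lemma l1_of_sq {N : ℕ} (g : ℕ → ℝ) {K s : ℝ} (hK : 0 ≤ K) (hs : 0 ≤ s)
    (h : ∑ n ∈ Icc 1 N, g n ^ 2 ≤ s ^ 2 * (N * K ^ 2)) : ∑ n ∈ Icc 1 N, |g n| ≤ s * (N * K) := by
  have h1 := sum_mul_sq_le_sq_mul_sq (Icc 1 N) (fun _ => (1 : ℝ)) (fun n => |g n|)
  simp only [one_mul, one_pow, sum_const, Nat.card_Icc, Nat.add_sub_cancel, nsmul_eq_mul, mul_one, sq_abs] at h1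
  have h2 : (∑ n ∈ Icc 1 N, |g n|) ^ 2 ≤ (s * (N * K)) ^ 2 := by
    refine h1.trans ?_
    calc (N : ℝ) * ∑ n ∈ Icc 1 N, g n ^ 2 ≤ N * (s ^ 2 * (N * K ^ 2)) := mul_le_mul_of_nonneg_left h (Nat.cast_nonneg N)
      _ = _ := by ring
  exact (sq_le_sq₀ (sum_nonneg fun _ _ => abs_nonneg _) (by positivity)).1 h2

end Pool.Agent.P8H89.AS
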