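import Pool.Agent.P8H89.AS.Smo
import Pool.Agent.P8H89.AS.Var

set_option autoImplicit false

/-!
# Arbitrary sets of arguments: prefixes, partial summation
-/

namespace Pool.Agent.P8H89.AS

open Finset
open Pool.Agent.P8H13.PK
open Pool.Agent.H373R2.T7 (pz mem_pz Vz lamz Vz_pos)

/-- the rank -/
def rk (S : Finset ℕ) (x : ℕ) : ℕ := (S.filter (fun v => v ≤ x)).card

/-- the prefixes -/
def pre (S : Finset ℕ) (J j : ℕ) : Finset ℕ := S.filter (fun x => rk S x * J ≤ j * S.card)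

lemma rk_mono (S : Finset ℕ) {x y : ℕ} (h : x ≤ y) : rk S x ≤ rk S y := by
  apply card_le_card
  intro v hv
  rw [mem_filter] at hv ⊢
  exact ⟨hv.1, hv.2.trans h⟩

lemma rk_lt {S : Finset ℕ} {x y : ℕ} (hy : y ∈ S) (h : x < y) : rk S x < rk S y := by
  apply card_lt_card
  rw [ssubset_iff_of_subset]
  · refine ⟨y, mem_filter.2 ⟨hy, le_rfl⟩, fun h2 => ?_⟩
    have := (mem_filter.1 h2).2
    omega
  · intro v hv
    rw [mem_filter] at hv ⊢
    exact ⟨hv.1, by omega⟩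

lemma rk_le (S : Finset ℕ) (x : ℕ) : rk S x ≤ S.card := card_filter_le _ _

lemma pre_sub {S : Finset ℕ} {J j m : ℕ} (hJ : 1 ≤ J) (h : j * S.card ≤ rk S m * J) :
    pre S J j ⊆ S.filter (fun x => x ≤ m) := by
  intro x hx
  unfold pre at hx
  rw [mem_filter] at hx ⊢
  refine ⟨hx.1, ?_⟩
  by_contra hcon
  push Not at hcon
  have h1 := rk_lt hx.1 hcon
  have h2 : rk S x * J ≤ rk S m * J := hx.2.trans h
  have h3 := Nat.le_of_mul_le_mul_right h2 (by omega)
  omega

lemma sub_pre {S : Finset ℕ} {J j m : ℕ} (h : rk S m * J ≤ j * S.card) :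
    S.filter (fun x => x ≤ m) ⊆ pre S J j := by
  intro x hx
  unfold pre
  rw [mem_filter] at hx ⊢
  exact ⟨hx.1, (Nat.mul_le_mul_right J (rk_mono S hx.2)).trans h⟩

lemma pre_mono (S : Finset ℕ) (J : ℕ) {j j' : ℕ} (h : j ≤ j') : pre S J j ⊆ pre S J j' := by
  intro x hx
  unfold pre at hx ⊢
  rw [mem_filter] at hx ⊢
  exact ⟨hx.1, hx.2.trans (Nat.mul_le_mul_right _ h)⟩

lemma card_diff (S : Finset ℕ) {J : ℕ} (hJ : 1 ≤ J) (j : ℕ) :
    (pre S J (j + 1) \ pre S J j).card ≤ S.card / J + 1 := by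
  have h1 : (pre S J (j + 1) \ pre S J j).card ≤ (Ioc (j * S.card / J) ((j + 1) * S.card / J)).card := by
    apply card_le_card_of_injOn (rk S)
    · intro x hx
      rw [mem_coe, mem_sdiff] at hx
      unfold pre at hx
      rw [mem_filter, mem_filter] at hx
      rw [mem_coe, mem_Ioc]
      refine ⟨?_, ?_⟩
      · rw [Nat.div_lt_iff_lt_mul (by omega)]
        by_contra hcon
        push Not at hcon
        exact hx.2 ⟨hx.1.1, hcon⟩
      · rw [Nat.le_div_iff_mul_le (by omega)]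
        exact hx.1.2
    · intro x hx x' hx' h
      rw [mem_coe, mem_sdiff] at hx hx'
      have hxS := (mem_filter.1 hx.1).1
      have hxS' := (mem_filter.1 hx'.1).1
      rcases lt_trichotomy x x' with h2 | h2 | h2
      · have := rk_lt hxS' h2
        omega
      · exact h2
      · have := rk_lt hxS h2
        omega
  refine h1.trans ?_
  rw [Nat.card_Ioc, add_mul, one_mul, Nat.add_div (by omega)]
  generalize j * S.card / J = a
  generalize S.card / J = b
  split_ifs <;> omega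

/-- partial summation -/
lemma abel {g b : ℕ → ℝ} {W : ℝ} (hb0 : ∀ x, 1 ≤ x → 0 ≤ b x) (hb : ∀ x, 1 ≤ x → b (x + 1) ≤ b x) (m : ℕ)
    (hg : ∀ n ≤ m, |∑ x ∈ Icc 1 n, g x| ≤ W) : |∑ x ∈ Icc 1 m, g x * b x| ≤ W * b 1 := by
  have hW : 0 ≤ W := (abs_nonneg _).trans (hg 0 (Nat.zero_le _))
  rcases Nat.eq_zero_or_pos m with h0 | h0
  · subst h0
    simp only [show Icc 1 0 = (∅ : Finset ℕ) from rfl, sum_empty, abs_zero]
    exact mul_nonneg hW (hb0 1 le_rfl)
  have h1 : ∀ n, 1 ≤ n → ∑ x ∈ Icc 1 n, g x * b x = (∑ x ∈ Icc 1 n, g x) * b n +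
      ∑ x ∈ Ico 1 n, (∑ v ∈ Icc 1 x, g v) * (b x - b (x + 1)) := by
    intro n hn
    induction n, hn using Nat.le_induction with
    | base => simp
    | succ n hn ih =>
      rw [sum_Icc_succ_top (by omega), ih, sum_Icc_succ_top (by omega), sum_Ico_succ_top hn]
      ring
  rw [h1 m h0]
  refine (abs_add_le _ _).trans ?_
  rw [abs_mul, abs_of_nonneg (hb0 m h0)]
  have h2 : |∑ x ∈ Ico 1 m, (∑ v ∈ Icc 1 x, g v) * (b x - b (x + 1))| ≤ ∑ x ∈ Ico 1 m, W * (b x - b (x + 1)) := by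
    refine (abs_sum_le_sum_abs _ _).trans (sum_le_sum fun x hx => ?_)
    rw [mem_Ico] at hx
    have h3 := hb x hx.1
    rw [abs_mul, abs_of_nonneg (by linarith : 0 ≤ b x - b (x + 1))]
    exact mul_le_mul_of_nonneg_right (hg x (by omega)) (by linarith)
  have h3 : ∀ n, 1 ≤ n → ∑ x ∈ Ico 1 n, W * (b x - b (x + 1)) = W * (b 1 - b n) := by
    intro n hn
    induction n, hn using Nat.le_induction with
    | base => simp
    | succ n hn ih =>
      rw [sum_Ico_succ_top hn, ih]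
      ring
  rw [h3 m h0] at h2
  have h4 := mul_le_mul_of_nonneg_right (hg m le_rfl) (hb0 m h0)
  linarith

lemma lamz_le_inv (z n : ℕ) : lamz z n ≤ (Vz z)⁻¹ := by
  unfold lamz
  split_ifs
  · exact le_rfl
  · exact inv_nonneg.2 (Vz_pos z).le

/-- from the grid of prefixes to all prefixes -/
lemma all_pre {S : Finset ℕ} {J : ℕ} (hJ : 1 ≤ J) (hS : S.Nonempty) {z A : ℕ} {w : ℝ}
    (h : ∀ j < J + 2, |∑ x ∈ pre S J j, (th (A + qq x) - lamz z (A + qq x))| ≤ w) (m : ℕ) :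
    |∑ x ∈ S.filter (fun x => x ≤ m), (th (A + qq x) - lamz z (A + qq x))| ≤ w + (Vz z)⁻¹ * (S.card / J + 1) := by
  have hc : 1 ≤ S.card := hS.card_pos
  have hJ0 : (0 : ℝ) < J := by exact_mod_cast hJ
  set j := rk S m * J / S.card with hj
  have hjJ : j ≤ J := by
    rw [hj]
    calc rk S m * J / S.card ≤ S.card * J / S.card := Nat.div_le_div_right (Nat.mul_le_mul_right J (rk_le S m))
      _ = J := Nat.mul_div_cancel_left J (by omega)
  have h1 : j * S.card ≤ rk S m * J := Nat.div_mul_le_self _ _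
  have h2 : rk S m * J ≤ (j + 1) * S.card := by
    have h3 : rk S m * J < S.card * (rk S m * J / S.card + 1) := Nat.lt_mul_div_succ _ (by omega)
    rw [mul_comm S.card] at h3
    exact h3.le
  have s1 := pre_sub hJ h1
  have s2 := sub_pre h2
  have s3 := pre_mono S J (Nat.le_succ j)
  have hth : ∀ x, 0 ≤ th (A + qq x) := fun x => th_nonneg _
  have hlz : ∀ x, 0 ≤ lamz z (A + qq x) := fun x => Pool.Agent.H373R2.T7.lamz_nonneg _ _
  have a1 := (abs_le.1 (h j (by omega)))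
  have a2 := (abs_le.1 (h (j + 1) (by omega)))
  rw [sum_sub_distrib] at a1 a2
  have b1 : ∑ x ∈ pre S J j, th (A + qq x) ≤ ∑ x ∈ S.filter (fun x => x ≤ m), th (A + qq x) :=
    sum_le_sum_of_subset_of_nonneg s1 fun x _ _ => hth x
  have b2 : ∑ x ∈ S.filter (fun x => x ≤ m), th (A + qq x) ≤ ∑ x ∈ pre S J (j + 1), th (A + qq x) :=
    sum_le_sum_of_subset_of_nonneg s2 fun x _ _ => hth x
  have b3 : ∑ x ∈ pre S J j, lamz z (A + qq x) ≤ ∑ x ∈ S.filter (fun x => x ≤ m), lamz z (A + qq x) :=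
    sum_le_sum_of_subset_of_nonneg s1 fun x _ _ => hlz x
  have b4 : ∑ x ∈ S.filter (fun x => x ≤ m), lamz z (A + qq x) ≤ ∑ x ∈ pre S J (j + 1), lamz z (A + qq x) :=
    sum_le_sum_of_subset_of_nonneg s2 fun x _ _ => hlz x
  have b5 : ∑ x ∈ pre S J (j + 1), lamz z (A + qq x) - ∑ x ∈ pre S J j, lamz z (A + qq x) ≤
      (Vz z)⁻¹ * (S.card / J + 1) := by
    rw [← sum_sdiff s3, add_sub_cancel_right]
    have h3 : ∑ x ∈ pre S J (j + 1) \ pre S J j, lamz z (A + qq x) ≤ ∑ _x ∈ pre S J (j + 1) \ pre S J j, (Vz z)⁻¹ :=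
      sum_le_sum fun x _ => lamz_le_inv z _
    rw [sum_const, nsmul_eq_mul, mul_comm] at h3
    refine h3.trans ?_
    apply mul_le_mul_of_nonneg_left _ (inv_nonneg.2 (Vz_pos z).le)
    have h4 : (((pre S J (j + 1) \ pre S J j).card : ℕ) : ℝ) ≤ ((S.card / J + 1 : ℕ) : ℝ) := by
      exact_mod_cast card_diff S hJ j
    refine h4.trans ?_
    push_cast
    linarith [Nat.cast_div_le (α := ℝ) (m := S.card) (n := J)]
  rw [sum_sub_distrib, abs_le]
  constructor
  · linarith [a1.1]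
  · linarith [a2.2]

end Pool.Agent.P8H89.AS
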