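import Pool.Agent.P8H89.AS.Cor

set_option autoImplicit false

/-!
# Arbitrary sets of arguments: the smooth part of the truncated model is the sieve model on average
-/

namespace Pool.Agent.P8H89.AS

open Finset
open Pool.Agent.P8H13.PK
open Pool.Agent.H373R2.T7 (pz mem_pz Vz lamz Vz_pos)

lemma lamz_eq (z n : ℕ) : lamz z n = ∏ p ∈ pz z, (1 + lf p n) := by
  unfold lamz
  split_ifs with h
  · unfold Vz
    rw [← prod_inv_distrib]
    apply prod_congr rfl
    intro p hp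
    unfold lf
    rw [if_neg (h p hp), inv_eq (mem_pz.1 hp).2]
  · push Not at h
    obtain ⟨p, hp, hd⟩ := h
    symm
    apply prod_eq_zero hp
    unfold lf
    rw [if_pos hd]
    norm_num

lemma sq_prod {T : Finset ℕ} (hT : ∀ p ∈ T, p.Prime) : Squarefree (∏ p ∈ T, p) := by
  apply Finset.squarefree_prod_of_pairwise_isCoprime
  · intro p hp q hq hpq
    have h1 := (Nat.coprime_primes (hT p hp) (hT q hq)).2 hpq
    exact Nat.coprime_iff_isRelPrime.1 h1
  · intro p hp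
    exact (hT p hp).squarefree

lemma mR_RS (Q z n : ℕ) : mR (RS Q z) n =
    ∑ T ∈ (pz z).powerset.filter (fun T => ∏ p ∈ T, p ≤ Q), ∏ p ∈ T, lf p n := by
  unfold mR
  refine sum_nbij' (fun r => r.primeFactors) (fun T => ∏ p ∈ T, p) ?_ ?_ ?_ ?_ ?_
  · intro r hr
    unfold RS at hr
    rw [mem_filter, mem_RQ] at hr
    obtain ⟨⟨⟨h1, h2⟩, h3, _⟩, h4⟩ := hr
    push Not at h4
    rw [mem_filter, mem_powerset, Nat.prod_primeFactors_of_squarefree h3]
    exact ⟨fun p hp => mem_pz.2 ⟨h4 p hp, Nat.prime_of_mem_primeFactors hp⟩, h2⟩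
  · intro T hT
    rw [mem_filter, mem_powerset] at hT
    have hTp : ∀ p ∈ T, p.Prime := fun p hp => (mem_pz.1 (hT.1 hp)).2
    unfold RS
    rw [mem_filter, mem_RQ]
    refine ⟨⟨⟨?_, hT.2⟩, sq_prod hTp, Nat.coprime_one_right _⟩, ?_⟩
    · exact prod_pos fun p hp => (hTp p hp).pos
    · push Not
      intro p hp
      rw [Nat.primeFactors_prod hTp] at hp
      exact (mem_pz.1 (hT.1 hp)).1
  · intro r hr
    unfold RS at hr
    rw [mem_filter, mem_RQ] at hr
    exact Nat.prod_primeFactors_of_squarefree hr.1.2.1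
  · intro T hT
    rw [mem_filter, mem_powerset] at hT
    exact Nat.primeFactors_prod fun p hp => (mem_pz.1 (hT.1 hp)).2
  · intro r _
    rfl

lemma lamz_sub {Q z k : ℕ} (hz : 1 ≤ z) (hk : z ^ k ≤ Q) (n : ℕ) :
    |lamz z n - mR (RS Q z) n| ≤ (∏ p ∈ pz z, (1 + 2 * |lf p n|)) / 2 ^ k := by
  have h1 : lamz z n - mR (RS Q z) n =
      ∑ T ∈ (pz z).powerset.filter (fun T => ¬ ∏ p ∈ T, p ≤ Q), ∏ p ∈ T, lf p n := by
    rw [lamz_eq, mR_RS, prod_one_add, ← sum_filter_add_sum_filter_not (pz z).powerset (fun T => ∏ p ∈ T, p ≤ Q)]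
    ring
  rw [h1]
  refine (abs_sum_le_sum_abs _ _).trans ?_
  have h2 : ∀ T ∈ (pz z).powerset.filter (fun T => ¬ ∏ p ∈ T, p ≤ Q), |∏ p ∈ T, lf p n| ≤
      (∏ p ∈ T, (2 * |lf p n|)) / 2 ^ k := by
    intro T hT
    rw [mem_filter, mem_powerset] at hT
    have h3 : k ≤ T.card := by
      by_contra hcon
      push Not at hcon
      apply hT.2
      calc ∏ p ∈ T, p ≤ ∏ _p ∈ T, z := prod_le_prod' fun p hp => (mem_pz.1 (hT.1 hp)).1
        _ = z ^ T.card := by rw [prod_const]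
        _ ≤ z ^ k := Nat.pow_le_pow_right hz hcon.le
        _ ≤ Q := hk
    rw [abs_prod, prod_mul_distrib, prod_const, le_div_iff₀ (by positivity), mul_comm]
    apply mul_le_mul_of_nonneg_right _ (prod_nonneg fun _ _ => abs_nonneg _)
    exact pow_le_pow_right₀ (by norm_num) h3
  refine (sum_le_sum h2).trans ?_
  rw [← sum_div]
  apply div_le_div_of_nonneg_right _ (by positivity)
  rw [prod_one_add]
  apply sum_le_sum_of_subset_of_nonneg (filter_subset _ _)
  intro T _ _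
  exact prod_nonneg fun _ _ => by positivity

lemma prod_three {z n : ℕ} (hn : n ≠ 0) (hz : 1 ≤ z) :
    ∏ p ∈ pz z, (1 + 2 * |lf p n|) ≤ (z : ℝ) ^ 2 * (n.divisors.card : ℝ) ^ 2 := by
  have h1 : ∀ p ∈ pz z, (1 + 2 * |lf p n|) ≤ (1 + 1 / ((p : ℝ) - 1)) ^ 2 * (if p ∣ n then 4 else 1) := by
    intro p hp
    have hp' := (mem_pz.1 hp).2
    have h2 : (2 : ℝ) ≤ p := by exact_mod_cast hp'.two_le
    have h3 : 0 < 1 / ((p : ℝ) - 1) := by
      apply one_div_pos.2
      linarith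
    unfold lf
    split_ifs with hd
    · rw [abs_neg, abs_one]
      nlinarith
    · rw [abs_of_pos h3]
      nlinarith
  have h0 : ∀ p ∈ pz z, 0 ≤ 1 + 2 * |lf p n| := fun p _ => by positivity
  refine (prod_le_prod h0 h1).trans ?_
  rw [prod_mul_distrib, prod_pow]
  have h4 : ∏ p ∈ pz z, (1 + 1 / ((p : ℝ) - 1)) = (Vz z)⁻¹ := by
    unfold Vz
    rw [← prod_inv_distrib]
    exact prod_congr rfl fun p hp => inv_eq (mem_pz.1 hp).2
  rw [h4]
  apply mul_le_mul _ _ (prod_nonneg fun p _ => by split_ifs <;> norm_num) (by positivity)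
  · exact pow_le_pow_left₀ (inv_nonneg.2 (Vz_pos z).le) (Pool.Agent.H373R2.T7.Vz_inv_le z hz) 2
  · rw [prod_ite, prod_const, prod_const_one, mul_one]
    have h5 : ((pz z).filter (fun p => p ∣ n)).card ≤ n.primeFactors.card := by
      apply card_le_card
      intro p hp
      rw [mem_filter] at hp
      exact Nat.mem_primeFactors.2 ⟨(mem_pz.1 hp.1).2, hp.2, hn⟩
    have h6 : (2 : ℕ) ^ n.primeFactors.card ≤ n.divisors.card := Pool.Agent.H398R2.BV.two_pow_omega_le n hn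
    calc (4 : ℝ) ^ ((pz z).filter (fun p => p ∣ n)).card ≤ 4 ^ n.primeFactors.card :=
          pow_le_pow_right₀ (by norm_num) h5
      _ = ((2 : ℝ) ^ n.primeFactors.card) ^ 2 := by rw [← pow_mul, mul_comm, pow_mul]; norm_num
      _ ≤ (n.divisors.card : ℝ) ^ 2 := by
          apply pow_le_pow_left₀ (by positivity)
          exact_mod_cast h6

/-- **the smooth part is the sieve model on average** -/
theorem sum_lamz_sub {Q z k : ℕ} (hz : 1 ≤ z) (hk : z ^ k ≤ Q) (M : ℕ) :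
    ∑ n ∈ Icc 1 M, |lamz z n - mR (RS Q z) n| ≤ M * ((z : ℝ) ^ 2 * (1 + Real.log M) ^ 4 / 2 ^ k) := by
  have h1 : ∀ n ∈ Icc 1 M, |lamz z n - mR (RS Q z) n| ≤
      (z : ℝ) ^ 2 / 2 ^ k * (M * ((n.divisors.card : ℝ) ^ 2 / n)) := by
    intro n hn
    rw [mem_Icc] at hn
    refine (lamz_sub hz hk n).trans ?_
    have h2 := prod_three (z := z) (n := n) (by omega) hz
    have hn0 : (0 : ℝ) < n := by exact_mod_cast (by omega : 0 < n)
    have hnM : (n : ℝ) ≤ M := by exact_mod_cast hn.2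
    have h3 : (n.divisors.card : ℝ) ^ 2 ≤ M * ((n.divisors.card : ℝ) ^ 2 / n) := by
      rw [mul_div_assoc', le_div_iff₀ hn0, mul_comm]
      exact mul_le_mul_of_nonneg_right hnM (by positivity)
    calc (∏ p ∈ pz z, (1 + 2 * |lf p n|)) / 2 ^ k ≤ ((z : ℝ) ^ 2 * (n.divisors.card : ℝ) ^ 2) / 2 ^ k :=
          div_le_div_of_nonneg_right h2 (by positivity)
      _ = (z : ℝ) ^ 2 / 2 ^ k * (n.divisors.card : ℝ) ^ 2 := by ring
      _ ≤ _ := mul_le_mul_of_nonneg_left h3 (by positivity)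
  refine (sum_le_sum h1).trans ?_
  rw [← mul_sum, ← mul_sum]
  have h2 := Pool.Agent.H398R2.BV.sum_card_pow_div 2 M
  have h3 : (2 : ℕ) ^ 2 = 4 := by norm_num
  rw [h3] at h2
  calc (z : ℝ) ^ 2 / 2 ^ k * (M * ∑ n ∈ Icc 1 M, (n.divisors.card : ℝ) ^ 2 / n) ≤
        (z : ℝ) ^ 2 / 2 ^ k * (M * (1 + Real.log M) ^ 4) := by
          apply mul_le_mul_of_nonneg_left _ (by positivity)
          exact mul_le_mul_of_nonneg_left h2 (Nat.cast_nonneg M)
    _ = _ := by ring

end Pool.Agent.P8H89.AS
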